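import Pool.Agent.helper14.NR.E5c.PN3

/-!
Generated: certificates.
-/

namespace Pool.Agent.helper14.NR.E5c

open Pool.Agent.helper31.IA (Z)
open Pool.Agent.helper31.IX (Op XOps runX Cov CovD cov_split covD_split)
open Pool.Agent.helper31.IC (TD)
open Pool.Agent.helper63.RG (reloc)
open Pool.Agent.helper63.NF hiding TD
open Pool.Agent.helper14.CF (xE covD_E)
open Pool.Agent.helper14.NR (share)

mutual
theorem A3_c0_t7 : CovD 1 gA3 [(183824809984, 12026118144), (467292127232, 27487895552), (687194767360, 687194767360)] :=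
  covD_E kA3_eq (.n 2 (.n 0 (.n 2 (.n 2 (.l 0) (.l 0)) (.n 2 (.l 0) (.l 0))) (.n 2 (.n 2 (.l 0) (.l 0)) (.n 2 (.l 0) (.l 0)))) (.n 2 (.n 2 (.l 0) (.l 0)) (.n 0 (.l 0) (.l 0))))
    [(183824809984, 12026118144), (467292127232, 27487895552), (687194767360, 687194767360)] rfl (by decide +kernel)
theorem A3_c0_t8 : CovD 1 gA3 [(183824809984, 12026118144), (467292127232, 27487895552), (2061584302080, 687194767360)] :=
  covD_E kA3_eq (.n 2 (.n 2 (.n 0 (.l 0) (.l 0)) (.l 0)) (.n 0 (.l 0) (.l 0)))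
    [(183824809984, 12026118144), (467292127232, 27487895552), (2061584302080, 687194767360)] rfl (by decide +kernel)
end

mutual
theorem A3_c0_t9 : CovD 1 gA3 [(183824809984, 12026118144), (522267918336, 27487895552), (1374389534720, 1374389534720)] :=
  covD_E kA3_eq (.n 2 (.n 2 (.n 0 (.n 2 (.l 0) (.l 0)) (.n 2 (.l 0) (.l 0))) (.n 2 (.n 0 (.l 0) (.l 0)) (.l 0))) (.n 2 (.n 2 (.l 0) (.l 0)) (.n 0 (.l 0) (.l 0))))
    [(183824809984, 12026118144), (522267918336, 27487895552), (1374389534720, 1374389534720)] rfl (by decide +kernel)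
theorem A3_c0_t10 : CovD 1 gA3 [(183824809984, 12026118144), (494780022784, 54975791104), (4123168604160, 1374389534720)] :=
  covD_E kA3_eq (.n 2 (.n 1 (.n 2 (.n 0 (.l 0) (.l 0)) (.l 0)) (.n 2 (.n 0 (.l 0) (.l 0)) (.l 0))) (.n 0 (.n 2 (.n 0 (.n 2 (.l 0) (.l 0)) (.l 0)) (.n 2 (.n 0 (.l 1) (.l 0)) (.l 1))) (.n 2 (.l 0) (.l 0))))
    [(183824809984, 12026118144), (494780022784, 54975791104), (4123168604160, 1374389534720)] rfl (by decide +kernel)
end

mutual
theorem A3_c0_t11 : CovD 1 gA3 [(183824809984, 12026118144), (494780022784, 54975791104), (8246337208320, 2748779069440)] :=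
  covD_E kA3_eq (.n 0 (.n 2 (.n 2 (.n 1 (.l 1) (.l 1)) (.l 1)) (.l 1)) (.n 2 (.n 2 (.n 2 (.l 0) (.l 0)) (.l 1)) (.l 1)))
    [(183824809984, 12026118144), (494780022784, 54975791104), (8246337208320, 2748779069440)] rfl (by decide +kernel)
theorem A3_c0_t14 : CovD 1 gA3 [(177811750912, 6013059072), (604731604992, 54975791104), (2748779069440, 2748779069440)] :=
  covD_E kA3_eq (.n 2 (.n 2 (.n 2 (.n 2 (.l 0) (.l 0)) (.n 2 (.l 0) (.l 0))) (.n 2 (.n 2 (.l 0) (.l 0)) (.n 0 (.l 0) (.l 0)))) (.n 2 (.n 2 (.l 0) (.l 0)) (.n 2 (.l 0) (.n 0 (.l 0) (.l 0)))))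
    [(177811750912, 6013059072), (604731604992, 54975791104), (2748779069440, 2748779069440)] rfl (by decide +kernel)
end

mutual
theorem A3_c0_t15 : CovD 1 gA3 [(177811750912, 6013059072), (604731604992, 54975791104), (8246337208320, 2748779069440)] :=
  covD_E kA3_eq (.n 2 (.n 2 (.n 2 (.l 1) (.l 1)) (.l 1)) (.l 1))
    [(177811750912, 6013059072), (604731604992, 54975791104), (8246337208320, 2748779069440)] rfl (by decide +kernel)
theorem A3_c0_t16 : CovD 1 gA3 [(189837869056, 6013059072), (604731604992, 54975791104), (5497558138880, 5497558138880)] :=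
  covD_E kA3_eq (.n 2 (.n 2 (.n 2 (.n 2 (.n 2 (.l 0) (.l 0)) (.n 2 (.l 0) (.l 0))) (.n 2 (.n 2 (.l 0) (.l 0)) (.n 0 (.l 0) (.l 0)))) (.n 2 (.n 2 (.l 0) (.l 0)) (.n 0 (.l 0) (.l 0)))) (.n 2 (.n 2 (.n 0 (.l 0) (.l 0)) (.l 0)) (.l 1)))
    [(189837869056, 6013059072), (604731604992, 54975791104), (5497558138880, 5497558138880)] rfl (by decide +kernel)
end

mutual
theorem A3_c0_t20 : CovD 1 gA3 [(177811750912, 6013059072), (714683187200, 54975791104), (2748779069440, 2748779069440)] :=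
  covD_E kA3_eq (.n 2 (.n 2 (.n 2 (.n 2 (.l 0) (.l 0)) (.n 2 (.l 0) (.l 0))) (.n 1 (.n 2 (.l 0) (.l 0)) (.n 2 (.l 0) (.l 0)))) (.n 2 (.n 2 (.l 0) (.l 0)) (.n 0 (.l 0) (.l 0))))
    [(177811750912, 6013059072), (714683187200, 54975791104), (2748779069440, 2748779069440)] rfl (by decide +kernel)
theorem A3_c0_t21 : CovD 1 gA3 [(177811750912, 6013059072), (824634769408, 54975791104), (2748779069440, 2748779069440)] :=
  covD_E kA3_eq (.n 2 (.n 2 (.n 2 (.n 2 (.l 0) (.l 0)) (.n 2 (.l 0) (.l 0))) (.n 2 (.n 1 (.l 0) (.l 0)) (.l 0))) (.n 2 (.n 2 (.l 0) (.l 0)) (.n 0 (.l 0) (.l 0))))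
    [(177811750912, 6013059072), (824634769408, 54975791104), (2748779069440, 2748779069440)] rfl (by decide +kernel)
end

mutual
theorem A3_c0_t22 : CovD 1 gA3 [(177811750912, 6013059072), (769658978304, 109951582208), (8246337208320, 2748779069440)] :=
  covD_E kA3_eq (.n 2 (.n 1 (.n 2 (.n 0 (.l 0) (.l 0)) (.l 0)) (.n 2 (.l 0) (.l 0))) (.n 2 (.l 1) (.l 1)))
    [(177811750912, 6013059072), (769658978304, 109951582208), (8246337208320, 2748779069440)] rfl (by decide +kernel)
theorem A3_c0_t24 : CovD 1 gA3 [(189837869056, 6013059072), (714683187200, 54975791104), (5497558138880, 5497558138880)] :=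
  covD_E kA3_eq (.n 2 (.n 2 (.n 2 (.n 2 (.n 2 (.l 0) (.l 0)) (.n 2 (.l 0) (.l 0))) (.n 1 (.n 2 (.l 0) (.l 0)) (.n 2 (.l 0) (.l 0)))) (.n 2 (.n 2 (.l 0) (.l 0)) (.n 0 (.l 0) (.l 0)))) (.n 2 (.n 2 (.l 0) (.l 0)) (.n 0 (.l 0) (.l 1))))
    [(189837869056, 6013059072), (714683187200, 54975791104), (5497558138880, 5497558138880)] rfl (by decide +kernel)
end

mutual
theorem A3_c0_t25 : CovD 1 gA3 [(189837869056, 6013059072), (824634769408, 54975791104), (5497558138880, 5497558138880)] :=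
  covD_E kA3_eq (.n 2 (.n 2 (.n 2 (.n 2 (.n 2 (.l 0) (.l 0)) (.n 2 (.l 0) (.l 0))) (.n 2 (.n 1 (.l 0) (.l 0)) (.l 0))) (.n 2 (.n 2 (.l 0) (.l 0)) (.n 0 (.l 0) (.l 0)))) (.n 2 (.n 2 (.l 0) (.l 0)) (.n 0 (.l 0) (.l 0))))
    [(189837869056, 6013059072), (824634769408, 54975791104), (5497558138880, 5497558138880)] rfl (by decide +kernel)
theorem A3_c0_t32 : CovD 1 gA3 [(207877046272, 12026118144), (467292127232, 27487895552), (687194767360, 687194767360)] :=
  covD_E kA3_eq (.n 2 (.n 0 (.n 2 (.n 2 (.l 0) (.l 0)) (.n 2 (.l 0) (.l 0))) (.n 2 (.n 2 (.l 0) (.l 0)) (.n 2 (.l 0) (.l 0)))) (.n 2 (.n 2 (.l 0) (.l 0)) (.n 0 (.l 0) (.l 0))))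
    [(207877046272, 12026118144), (467292127232, 27487895552), (687194767360, 687194767360)] rfl (by decide +kernel)
end

mutual
theorem A3_c0_t33 : CovD 1 gA3 [(207877046272, 12026118144), (467292127232, 27487895552), (2061584302080, 687194767360)] :=
  covD_E kA3_eq (.n 2 (.n 2 (.n 0 (.l 0) (.l 0)) (.l 0)) (.n 0 (.l 0) (.l 0)))
    [(207877046272, 12026118144), (467292127232, 27487895552), (2061584302080, 687194767360)] rfl (by decide +kernel)
theorem A3_c0_t34 : CovD 1 gA3 [(207877046272, 12026118144), (467292127232, 27487895552), (4123168604160, 1374389534720)] :=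
  covD_E kA3_eq (.n 2 (.n 2 (.n 0 (.l 0) (.l 0)) (.l 0)) (.n 0 (.l 0) (.l 0)))
    [(207877046272, 12026118144), (467292127232, 27487895552), (4123168604160, 1374389534720)] rfl (by decide +kernel)
end

mutual
theorem A3_c0_t35 : CovD 1 gA3 [(207877046272, 12026118144), (467292127232, 27487895552), (8246337208320, 2748779069440)] :=
  covD_E kA3_eq (.n 2 (.n 0 (.n 2 (.l 0) (.l 0)) (.n 2 (.l 0) (.l 0))) (.n 2 (.l 0) (.l 0)))
    [(207877046272, 12026118144), (467292127232, 27487895552), (8246337208320, 2748779069440)] rfl (by decide +kernel)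
theorem A3_c0_t37 : CovD 1 gA3 [(207877046272, 12026118144), (522267918336, 27487895552), (2748779069440, 2748779069440)] :=
  covD_E kA3_eq (.n 2 (.n 2 (.n 2 (.n 0 (.n 2 (.l 0) (.l 0)) (.n 2 (.l 0) (.l 0))) (.n 2 (.n 0 (.l 0) (.l 0)) (.l 0))) (.n 2 (.n 2 (.l 0) (.l 0)) (.n 0 (.l 0) (.l 0)))) (.n 2 (.n 2 (.l 0) (.l 0)) (.n 0 (.l 0) (.l 0))))
    [(207877046272, 12026118144), (522267918336, 27487895552), (2748779069440, 2748779069440)] rfl (by decide +kernel)
end

mutual
theorem A3_c0_t38 : CovD 1 gA3 [(207877046272, 12026118144), (522267918336, 27487895552), (8246337208320, 2748779069440)] :=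
  covD_E kA3_eq (.n 2 (.n 2 (.n 0 (.l 0) (.l 0)) (.l 0)) (.n 0 (.l 0) (.l 0)))
    [(207877046272, 12026118144), (522267918336, 27487895552), (8246337208320, 2748779069440)] rfl (by decide +kernel)
theorem A3_c0_t41 : CovD 1 gA3 [(207877046272, 12026118144), (577243709440, 27487895552), (2748779069440, 2748779069440)] :=
  covD_E kA3_eq (.n 2 (.n 2 (.n 2 (.n 2 (.l 0) (.l 0)) (.n 2 (.l 0) (.l 0))) (.n 2 (.n 2 (.l 0) (.l 0)) (.n 0 (.l 0) (.l 0)))) (.n 2 (.n 2 (.l 0) (.l 0)) (.n 0 (.l 0) (.l 0))))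
    [(207877046272, 12026118144), (577243709440, 27487895552), (2748779069440, 2748779069440)] rfl (by decide +kernel)
end

mutual
theorem A3_c0_t42 : CovD 1 gA3 [(207877046272, 12026118144), (577243709440, 27487895552), (8246337208320, 2748779069440)] :=
  covD_E kA3_eq (.n 2 (.n 2 (.n 0 (.l 0) (.l 0)) (.l 0)) (.n 0 (.l 0) (.l 0)))
    [(207877046272, 12026118144), (577243709440, 27487895552), (8246337208320, 2748779069440)] rfl (by decide +kernel)
theorem A3_c0_t44 : CovD 1 gA3 [(207877046272, 12026118144), (632219500544, 27487895552), (2748779069440, 2748779069440)] :=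
  covD_E kA3_eq (.n 2 (.n 2 (.n 2 (.n 2 (.l 0) (.l 0)) (.n 2 (.l 0) (.l 0))) (.n 0 (.n 2 (.l 0) (.l 0)) (.n 2 (.l 0) (.l 0)))) (.n 2 (.n 2 (.l 0) (.l 0)) (.n 0 (.l 0) (.l 0))))
    [(207877046272, 12026118144), (632219500544, 27487895552), (2748779069440, 2748779069440)] rfl (by decide +kernel)
end

mutual
theorem A3_c0_t45 : CovD 1 gA3 [(207877046272, 12026118144), (632219500544, 27487895552), (8246337208320, 2748779069440)] :=
  covD_E kA3_eq (.n 2 (.n 2 (.n 0 (.l 0) (.l 0)) (.l 0)) (.n 0 (.l 0) (.l 0)))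
    [(207877046272, 12026118144), (632219500544, 27487895552), (8246337208320, 2748779069440)] rfl (by decide +kernel)
theorem A3_c0_t48 : CovD 1 gA3 [(201863987200, 6013059072), (714683187200, 54975791104), (5497558138880, 5497558138880)] :=
  covD_E kA3_eq (.n 2 (.n 2 (.n 2 (.n 2 (.n 2 (.l 0) (.l 0)) (.n 2 (.l 0) (.l 0))) (.n 1 (.n 2 (.l 0) (.l 0)) (.n 2 (.l 0) (.l 0)))) (.n 2 (.n 2 (.l 0) (.l 0)) (.n 0 (.l 0) (.l 0)))) (.n 2 (.n 2 (.l 0) (.l 0)) (.n 1 (.l 0) (.l 0))))
    [(201863987200, 6013059072), (714683187200, 54975791104), (5497558138880, 5497558138880)] rfl (by decide +kernel)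
end

mutual
theorem A3_c0_t49 : CovD 1 gA3 [(201863987200, 6013059072), (824634769408, 54975791104), (5497558138880, 5497558138880)] :=
  covD_E kA3_eq (.n 2 (.n 2 (.n 2 (.n 2 (.n 2 (.l 0) (.l 0)) (.n 2 (.l 0) (.l 0))) (.n 2 (.n 1 (.l 0) (.l 0)) (.l 0))) (.n 2 (.n 2 (.l 0) (.l 0)) (.n 0 (.l 0) (.l 0)))) (.n 2 (.n 2 (.l 0) (.l 0)) (.n 0 (.l 0) (.l 0))))
    [(201863987200, 6013059072), (824634769408, 54975791104), (5497558138880, 5497558138880)] rfl (by decide +kernel)
theorem A3_c0_t51 : CovD 1 gA3 [(213890105344, 6013059072), (714683187200, 54975791104), (5497558138880, 5497558138880)] :=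
  covD_E kA3_eq (.n 2 (.n 2 (.n 2 (.n 2 (.n 2 (.l 0) (.l 0)) (.n 2 (.l 0) (.l 0))) (.n 1 (.n 2 (.l 0) (.l 0)) (.n 2 (.l 0) (.l 0)))) (.n 2 (.n 2 (.l 0) (.l 0)) (.n 0 (.l 0) (.l 0)))) (.n 2 (.n 2 (.l 0) (.l 0)) (.n 1 (.l 0) (.l 0))))
    [(213890105344, 6013059072), (714683187200, 54975791104), (5497558138880, 5497558138880)] rfl (by decide +kernel)
end

mutual
theorem A3_c0_t52 : CovD 1 gA3 [(213890105344, 6013059072), (824634769408, 54975791104), (5497558138880, 5497558138880)] :=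
  covD_E kA3_eq (.n 2 (.n 2 (.n 2 (.n 2 (.n 2 (.l 0) (.l 0)) (.n 2 (.l 0) (.l 0))) (.n 1 (.n 2 (.l 0) (.l 0)) (.n 2 (.l 0) (.l 0)))) (.n 2 (.n 2 (.l 0) (.l 0)) (.n 0 (.l 0) (.l 0)))) (.n 2 (.n 2 (.l 0) (.l 0)) (.n 0 (.l 0) (.l 0))))
    [(213890105344, 6013059072), (824634769408, 54975791104), (5497558138880, 5497558138880)] rfl (by decide +kernel)
theorem B3_c0_t1 : CovD 1 gB3 [(183824809984, 12026118144), (659707396096, 219903164416), (54975791104, 54975791104)] :=
  covD_E kB3_eq (.n 1 (.n 1 (.n 2 (.l 1) (.l 1)) (.n 2 (.l 1) (.l 1))) (.n 0 (.n 2 (.l 1) (.n 1 (.l 1) (.l 0))) (.n 1 (.n 2 (.l 0) (.l 0)) (.n 2 (.l 0) (.l 0)))))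
    [(183824809984, 12026118144), (659707396096, 219903164416), (54975791104, 54975791104)] rfl (by decide +kernel)
end

mutual
theorem B3_c0_t2 : CovD 1 gB3 [(207877046272, 12026118144), (659707396096, 219903164416), (54975791104, 54975791104)] :=
  covD_E kB3_eq (.n 1 (.n 1 (.n 1 (.n 2 (.l 0) (.l 0)) (.n 2 (.l 0) (.l 0))) (.n 0 (.n 2 (.l 0) (.l 0)) (.n 2 (.l 0) (.l 0)))) (.n 0 (.n 1 (.n 2 (.l 0) (.l 0)) (.n 2 (.l 0) (.l 0))) (.n 1 (.n 2 (.l 0) (.l 0)) (.n 2 (.l 0) (.l 0)))))
    [(207877046272, 12026118144), (659707396096, 219903164416), (54975791104, 54975791104)] rfl (by decide +kernel)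
theorem D3_c0_t2 : CovD 1 gD3 [(195850928128, 24052236288), (494780022784, 54975791104), (863554764800, 863554764800)] :=
  covD_E kD3_eq (.n 2 (.n 2 (.n 2 (.l 0) (.l 0)) (.n 2 (.l 0) (.l 0))) (.n 2 (.n 2 (.l 0) (.n 0 (.l 0) (.l 0))) (.n 0 (.n 2 (.l 0) (.l 0)) (.n 2 (.l 0) (.l 0)))))
    [(195850928128, 24052236288), (494780022784, 54975791104), (863554764800, 863554764800)] rfl (by decide +kernel)
end

mutual
theorem D3_c0_t3 : CovD 1 gD3 [(195850928128, 24052236288), (604731604992, 54975791104), (863554764800, 863554764800)] :=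
  covD_E kD3_eq (.n 2 (.n 2 (.n 0 (.l 0) (.l 0)) (.n 2 (.l 0) (.l 0))) (.n 2 (.n 2 (.l 0) (.n 0 (.l 0) (.l 0))) (.n 0 (.n 2 (.l 0) (.l 0)) (.n 2 (.l 0) (.l 0)))))
    [(195850928128, 24052236288), (604731604992, 54975791104), (863554764800, 863554764800)] rfl (by decide +kernel)
theorem D3_c0_t5 : CovD 1 gD3 [(195850928128, 24052236288), (714683187200, 54975791104), (863554764800, 863554764800)] :=
  covD_E kD3_eq (.n 2 (.n 2 (.n 2 (.l 0) (.l 0)) (.n 0 (.n 0 (.l 0) (.l 0)) (.n 1 (.l 0) (.l 0)))) (.n 0 (.n 2 (.n 1 (.l 0) (.l 0)) (.n 2 (.l 0) (.l 0))) (.n 2 (.n 1 (.l 0) (.l 0)) (.n 2 (.l 0) (.l 0)))))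
    [(195850928128, 24052236288), (714683187200, 54975791104), (863554764800, 863554764800)] rfl (by decide +kernel)
end

mutual
theorem D3_c0_t6 : CovD 1 gD3 [(195850928128, 24052236288), (824634769408, 54975791104), (863554764800, 863554764800)] :=
  covD_E kD3_eq (.n 0 (.n 2 (.n 2 (.l 0) (.n 0 (.l 0) (.l 0))) (.n 2 (.n 1 (.l 0) (.l 0)) (.n 2 (.l 0) (.l 0)))) (.n 2 (.n 1 (.n 2 (.l 0) (.l 0)) (.n 2 (.l 0) (.l 0))) (.n 2 (.n 1 (.l 0) (.l 0)) (.n 2 (.l 0) (.l 1)))))
    [(195850928128, 24052236288), (824634769408, 54975791104), (863554764800, 863554764800)] rfl (by decide +kernel)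
theorem E3_c0_t1 : CovD 1 gE3 [(195850928128, 24052236288), (659707396096, 219903164416), (431777382400, 431777382400)] :=
  covD_E kE3_eq (.n 1 (.n 2 (.l 1) (.n 0 (.l 1) (.l 1))) (.n 2 (.l 1) (.l 1)))
    [(195850928128, 24052236288), (659707396096, 219903164416), (431777382400, 431777382400)] rfl (by decide +kernel)
end

mutual
theorem E3_c0_t3 : CovD 1 gE3 [(183824809984, 12026118144), (659707396096, 219903164416), (1295332147200, 431777382400)] :=
  covD_E kE3_eq (.n 1 (.n 1 (.n 2 (.l 1) (.n 2 (.n 0 (.l 1) (.l 1)) (.n 2 (.l 0) (.l 0)))) (.n 2 (.l 1) (.n 2 (.l 1) (.l 0)))) (.n 1 (.n 2 (.l 1) (.n 2 (.l 1) (.l 0))) (.n 2 (.l 1) (.n 2 (.l 1) (.l 0)))))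
    [(183824809984, 12026118144), (659707396096, 219903164416), (1295332147200, 431777382400)] rfl (by decide +kernel)
theorem E3_c0_t4 : CovD 1 gE3 [(207877046272, 12026118144), (659707396096, 219903164416), (1295332147200, 431777382400)] :=
  covD_E kE3_eq (.n 1 (.n 2 (.l 1) (.n 2 (.l 1) (.n 1 (.l 1) (.l 1)))) (.n 2 (.l 1) (.n 0 (.n 1 (.l 1) (.l 1)) (.l 1))))
    [(207877046272, 12026118144), (659707396096, 219903164416), (1295332147200, 431777382400)] rfl (by decide +kernel)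
end

theorem A3_c0_t6 : CovD 1 gA3 [(183824809984, 12026118144), (467292127232, 27487895552), (1374389534720, 1374389534720)] :=
  covD_split 2 (by decide +kernel) A3_c0_t7 A3_c0_t8

theorem A3_c0_t5 : CovD 1 gA3 [(183824809984, 12026118144), (494780022784, 54975791104), (1374389534720, 1374389534720)] :=
  covD_split 1 (by decide +kernel) A3_c0_t6 A3_c0_t9

theorem A3_c0_t4 : CovD 1 gA3 [(183824809984, 12026118144), (494780022784, 54975791104), (2748779069440, 2748779069440)] :=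
  covD_split 2 (by decide +kernel) A3_c0_t5 A3_c0_t10

theorem A3_c0_t3 : CovD 1 gA3 [(183824809984, 12026118144), (494780022784, 54975791104), (5497558138880, 5497558138880)] :=
  covD_split 2 (by decide +kernel) A3_c0_t4 A3_c0_t11

theorem A3_c0_t13 : CovD 1 gA3 [(177811750912, 6013059072), (604731604992, 54975791104), (5497558138880, 5497558138880)] :=
  covD_split 2 (by decide +kernel) A3_c0_t14 A3_c0_t15

theorem A3_c0_t12 : CovD 1 gA3 [(183824809984, 12026118144), (604731604992, 54975791104), (5497558138880, 5497558138880)] :=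
  covD_split 0 (by decide +kernel) A3_c0_t13 A3_c0_t16

theorem A3_c0_t2 : CovD 1 gA3 [(183824809984, 12026118144), (549755813888, 109951582208), (5497558138880, 5497558138880)] :=
  covD_split 1 (by decide +kernel) A3_c0_t3 A3_c0_t12

theorem A3_c0_t19 : CovD 1 gA3 [(177811750912, 6013059072), (769658978304, 109951582208), (2748779069440, 2748779069440)] :=
  covD_split 1 (by decide +kernel) A3_c0_t20 A3_c0_t21

theorem A3_c0_t18 : CovD 1 gA3 [(177811750912, 6013059072), (769658978304, 109951582208), (5497558138880, 5497558138880)] :=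
  covD_split 2 (by decide +kernel) A3_c0_t19 A3_c0_t22

theorem A3_c0_t23 : CovD 1 gA3 [(189837869056, 6013059072), (769658978304, 109951582208), (5497558138880, 5497558138880)] :=
  covD_split 1 (by decide +kernel) A3_c0_t24 A3_c0_t25

theorem A3_c0_t17 : CovD 1 gA3 [(183824809984, 12026118144), (769658978304, 109951582208), (5497558138880, 5497558138880)] :=
  covD_split 0 (by decide +kernel) A3_c0_t18 A3_c0_t23

theorem A3_c0_t1 : CovD 1 gA3 [(183824809984, 12026118144), (659707396096, 219903164416), (5497558138880, 5497558138880)] :=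
  covD_split 1 (by decide +kernel) A3_c0_t2 A3_c0_t17

theorem A3_c0_t31 : CovD 1 gA3 [(207877046272, 12026118144), (467292127232, 27487895552), (1374389534720, 1374389534720)] :=
  covD_split 2 (by decide +kernel) A3_c0_t32 A3_c0_t33

theorem A3_c0_t30 : CovD 1 gA3 [(207877046272, 12026118144), (467292127232, 27487895552), (2748779069440, 2748779069440)] :=
  covD_split 2 (by decide +kernel) A3_c0_t31 A3_c0_t34

theorem A3_c0_t29 : CovD 1 gA3 [(207877046272, 12026118144), (467292127232, 27487895552), (5497558138880, 5497558138880)] :=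
  covD_split 2 (by decide +kernel) A3_c0_t30 A3_c0_t35

theorem A3_c0_t36 : CovD 1 gA3 [(207877046272, 12026118144), (522267918336, 27487895552), (5497558138880, 5497558138880)] :=
  covD_split 2 (by decide +kernel) A3_c0_t37 A3_c0_t38

theorem A3_c0_t28 : CovD 1 gA3 [(207877046272, 12026118144), (494780022784, 54975791104), (5497558138880, 5497558138880)] :=
  covD_split 1 (by decide +kernel) A3_c0_t29 A3_c0_t36

theorem A3_c0_t40 : CovD 1 gA3 [(207877046272, 12026118144), (577243709440, 27487895552), (5497558138880, 5497558138880)] :=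
  covD_split 2 (by decide +kernel) A3_c0_t41 A3_c0_t42

theorem A3_c0_t43 : CovD 1 gA3 [(207877046272, 12026118144), (632219500544, 27487895552), (5497558138880, 5497558138880)] :=
  covD_split 2 (by decide +kernel) A3_c0_t44 A3_c0_t45

theorem A3_c0_t39 : CovD 1 gA3 [(207877046272, 12026118144), (604731604992, 54975791104), (5497558138880, 5497558138880)] :=
  covD_split 1 (by decide +kernel) A3_c0_t40 A3_c0_t43

theorem A3_c0_t27 : CovD 1 gA3 [(207877046272, 12026118144), (549755813888, 109951582208), (5497558138880, 5497558138880)] :=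
  covD_split 1 (by decide +kernel) A3_c0_t28 A3_c0_t39

theorem A3_c0_t47 : CovD 1 gA3 [(201863987200, 6013059072), (769658978304, 109951582208), (5497558138880, 5497558138880)] :=
  covD_split 1 (by decide +kernel) A3_c0_t48 A3_c0_t49

theorem A3_c0_t50 : CovD 1 gA3 [(213890105344, 6013059072), (769658978304, 109951582208), (5497558138880, 5497558138880)] :=
  covD_split 1 (by decide +kernel) A3_c0_t51 A3_c0_t52

theorem A3_c0_t46 : CovD 1 gA3 [(207877046272, 12026118144), (769658978304, 109951582208), (5497558138880, 5497558138880)] :=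
  covD_split 0 (by decide +kernel) A3_c0_t47 A3_c0_t50

theorem A3_c0_t26 : CovD 1 gA3 [(207877046272, 12026118144), (659707396096, 219903164416), (5497558138880, 5497558138880)] :=
  covD_split 1 (by decide +kernel) A3_c0_t27 A3_c0_t46

theorem A3_c0 : CovD 1 gA3 [(195850928128, 24052236288), (659707396096, 219903164416), (5497558138880, 5497558138880)] :=
  covD_split 0 (by decide +kernel) A3_c0_t1 A3_c0_t26

theorem B3_c0 : CovD 1 gB3 [(195850928128, 24052236288), (659707396096, 219903164416), (54975791104, 54975791104)] :=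
  covD_split 0 (by decide +kernel) B3_c0_t1 B3_c0_t2

theorem D3_c0_t1 : CovD 1 gD3 [(195850928128, 24052236288), (549755813888, 109951582208), (863554764800, 863554764800)] :=
  covD_split 1 (by decide +kernel) D3_c0_t2 D3_c0_t3

theorem D3_c0_t4 : CovD 1 gD3 [(195850928128, 24052236288), (769658978304, 109951582208), (863554764800, 863554764800)] :=
  covD_split 1 (by decide +kernel) D3_c0_t5 D3_c0_t6

theorem D3_c0 : CovD 1 gD3 [(195850928128, 24052236288), (659707396096, 219903164416), (863554764800, 863554764800)] :=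
  covD_split 1 (by decide +kernel) D3_c0_t1 D3_c0_t4

theorem E3_c0_t2 : CovD 1 gE3 [(195850928128, 24052236288), (659707396096, 219903164416), (1295332147200, 431777382400)] :=
  covD_split 0 (by decide +kernel) E3_c0_t3 E3_c0_t4

theorem E3_c0 : CovD 1 gE3 [(195850928128, 24052236288), (659707396096, 219903164416), (863554764800, 863554764800)] :=
  covD_split 2 (by decide +kernel) E3_c0_t1 E3_c0_t2

end Pool.Agent.helper14.NR.E5c
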