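import Pool.Agent.helper14.NR.E5c.PN4

/-!
Generated: certificates.
-/

namespace Pool.Agent.helper14.NR.E5c

open Pool.Agent.helper31.IA (Z)
open Pool.Agent.helper31.IX (Op XOps runX Cov CovD cov_split covD_split)
open Pool.Agent.helper31.IC (TD)
open Pool.Agent.helper63.RG (reloc)
open Pool.Agent.helper63.NF hiding TD
open Pool.Agent.helper14.CF (xE covD_E)
open Pool.Agent.helper14.NR (share)

mutual
theorem D4_c0_t3 : CovD 1 gD4 [(195850928128, 24052236288), (467292127232, 27487895552), (863554764800, 863554764800)] :=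
  covD_E kD4_eq (.n 2 (.n 2 (.n 2 (.l 0) (.l 0)) (.n 0 (.n 0 (.l 0) (.l 0)) (.n 2 (.l 0) (.l 0)))) (.n 0 (.n 2 (.n 2 (.l 0) (.l 0)) (.n 2 (.l 0) (.n 2 (.l 0) (.l 0)))) (.n 2 (.n 2 (.l 0) (.n 0 (.l 0) (.l 0))) (.l 1))))
    [(195850928128, 24052236288), (467292127232, 27487895552), (863554764800, 863554764800)] rfl (by decide +kernel)
theorem D4_c0_t4 : CovD 1 gD4 [(195850928128, 24052236288), (522267918336, 27487895552), (863554764800, 863554764800)] :=
  covD_E kD4_eq (.n 2 (.n 2 (.n 2 (.l 0) (.l 0)) (.n 2 (.l 0) (.n 0 (.l 0) (.l 0)))) (.n 0 (.n 2 (.n 0 (.l 0) (.l 0)) (.n 2 (.l 0) (.l 0))) (.n 2 (.n 2 (.l 0) (.l 0)) (.l 1))))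
    [(195850928128, 24052236288), (522267918336, 27487895552), (863554764800, 863554764800)] rfl (by decide +kernel)
end

mutual
theorem D4_c0_t6 : CovD 1 gD4 [(183824809984, 12026118144), (604731604992, 54975791104), (863554764800, 863554764800)] :=
  covD_E kD4_eq (.n 2 (.n 2 (.n 1 (.l 0) (.l 0)) (.n 2 (.l 0) (.l 0))) (.n 2 (.n 2 (.l 0) (.l 0)) (.n 0 (.n 2 (.l 0) (.l 0)) (.n 2 (.l 0) (.l 1)))))
    [(183824809984, 12026118144), (604731604992, 54975791104), (863554764800, 863554764800)] rfl (by decide +kernel)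
theorem D4_c0_t7 : CovD 1 gD4 [(207877046272, 12026118144), (604731604992, 54975791104), (863554764800, 863554764800)] :=
  covD_E kD4_eq (.n 2 (.n 2 (.n 2 (.l 0) (.l 0)) (.n 2 (.l 0) (.l 0))) (.n 0 (.n 2 (.n 2 (.l 0) (.l 0)) (.l 1)) (.n 2 (.n 2 (.l 0) (.l 1)) (.l 1))))
    [(207877046272, 12026118144), (604731604992, 54975791104), (863554764800, 863554764800)] rfl (by decide +kernel)
end

mutual
theorem D4_c0_t10 : CovD 1 gD4 [(183824809984, 12026118144), (714683187200, 54975791104), (863554764800, 863554764800)] :=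
  covD_E kD4_eq (.n 2 (.n 1 (.n 2 (.l 0) (.l 0)) (.n 2 (.l 0) (.l 0))) (.n 2 (.n 2 (.l 0) (.l 0)) (.n 2 (.n 0 (.l 0) (.l 0)) (.l 1))))
    [(183824809984, 12026118144), (714683187200, 54975791104), (863554764800, 863554764800)] rfl (by decide +kernel)
theorem D4_c0_t11 : CovD 1 gD4 [(183824809984, 12026118144), (824634769408, 54975791104), (863554764800, 863554764800)] :=
  covD_E kD4_eq (.n 2 (.n 2 (.n 1 (.l 0) (.l 0)) (.n 2 (.l 0) (.l 0))) (.n 2 (.n 2 (.l 0) (.n 0 (.l 0) (.l 0))) (.n 2 (.l 1) (.l 1))))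
    [(183824809984, 12026118144), (824634769408, 54975791104), (863554764800, 863554764800)] rfl (by decide +kernel)
end

mutual
theorem D4_c0_t12 : CovD 1 gD4 [(207877046272, 12026118144), (769658978304, 109951582208), (863554764800, 863554764800)] :=
  covD_E kD4_eq (.n 1 (.n 2 (.n 2 (.n 2 (.l 0) (.l 0)) (.n 2 (.l 0) (.n 0 (.l 0) (.l 0)))) (.n 2 (.n 2 (.l 1) (.l 1)) (.l 1))) (.n 2 (.n 2 (.n 2 (.l 1) (.l 1)) (.n 2 (.l 1) (.l 1))) (.n 2 (.l 1) (.l 1))))
    [(207877046272, 12026118144), (769658978304, 109951582208), (863554764800, 863554764800)] rfl (by decide +kernel)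
theorem E4_c0_t1 : CovD 1 gE4 [(195850928128, 24052236288), (659707396096, 219903164416), (431777382400, 431777382400)] :=
  covD_E kE4_eq (.n 1 (.n 2 (.l 1) (.n 0 (.l 1) (.l 1))) (.n 2 (.l 1) (.l 1)))
    [(195850928128, 24052236288), (659707396096, 219903164416), (431777382400, 431777382400)] rfl (by decide +kernel)
end

theorem E4_c0_t2 : CovD 1 gE4 [(195850928128, 24052236288), (659707396096, 219903164416), (1295332147200, 431777382400)] :=
  covD_E kE4_eq (.n 1 (.n 1 (.n 2 (.l 1) (.n 0 (.n 0 (.l 1) (.l 1)) (.l 1))) (.n 2 (.l 1) (.n 0 (.n 0 (.l 1) (.l 1)) (.l 1)))) (.n 0 (.n 2 (.l 1) (.n 1 (.l 1) (.l 1))) (.n 2 (.l 1) (.l 1))))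
    [(195850928128, 24052236288), (659707396096, 219903164416), (1295332147200, 431777382400)] rfl (by decide +kernel)

theorem D4_c0_t2 : CovD 1 gD4 [(195850928128, 24052236288), (494780022784, 54975791104), (863554764800, 863554764800)] :=
  covD_split 1 (by decide +kernel) D4_c0_t3 D4_c0_t4

theorem D4_c0_t5 : CovD 1 gD4 [(195850928128, 24052236288), (604731604992, 54975791104), (863554764800, 863554764800)] :=
  covD_split 0 (by decide +kernel) D4_c0_t6 D4_c0_t7

theorem D4_c0_t1 : CovD 1 gD4 [(195850928128, 24052236288), (549755813888, 109951582208), (863554764800, 863554764800)] :=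
  covD_split 1 (by decide +kernel) D4_c0_t2 D4_c0_t5

theorem D4_c0_t9 : CovD 1 gD4 [(183824809984, 12026118144), (769658978304, 109951582208), (863554764800, 863554764800)] :=
  covD_split 1 (by decide +kernel) D4_c0_t10 D4_c0_t11

theorem D4_c0_t8 : CovD 1 gD4 [(195850928128, 24052236288), (769658978304, 109951582208), (863554764800, 863554764800)] :=
  covD_split 0 (by decide +kernel) D4_c0_t9 D4_c0_t12

theorem D4_c0 : CovD 1 gD4 [(195850928128, 24052236288), (659707396096, 219903164416), (863554764800, 863554764800)] :=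
  covD_split 1 (by decide +kernel) D4_c0_t1 D4_c0_t8

theorem E4_c0 : CovD 1 gE4 [(195850928128, 24052236288), (659707396096, 219903164416), (863554764800, 863554764800)] :=
  covD_split 2 (by decide +kernel) E4_c0_t1 E4_c0_t2

end Pool.Agent.helper14.NR.E5c
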