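import Pool.Agent.helper14.NR.E5c.PN5

/-!
Generated: certificates.
-/

namespace Pool.Agent.helper14.NR.E5c

open Pool.Agent.helper31.IA (Z)
open Pool.Agent.helper31.IX (Op XOps runX Cov CovD cov_split covD_split)
open Pool.Agent.helper31.IC (TD)
open Pool.Agent.helper63.RG (reloc)
open Pool.Agent.helper63.NF hiding TD
open Pool.Agent.helper14.CF (xE covD_E)
open Pool.Agent.helper14.NR (share)

mutual
theorem A5_c0_t9 : CovD 1 gA5 [(177811750912, 6013059072), (467292127232, 27487895552), (343597383680, 343597383680)] :=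
  covD_E kA5_eq (.n 1 (.n 2 (.n 2 (.n 2 (.l 0) (.l 0)) (.n 2 (.l 0) (.l 0))) (.n 2 (.n 0 (.l 0) (.l 0)) (.l 0))) (.n 2 (.n 2 (.n 2 (.l 0) (.l 0)) (.n 2 (.l 0) (.l 0))) (.n 2 (.n 0 (.l 0) (.l 0)) (.l 0))))
    [(177811750912, 6013059072), (467292127232, 27487895552), (343597383680, 343597383680)] rfl (by decide +kernel)
theorem A5_c0_t10 : CovD 1 gA5 [(177811750912, 6013059072), (467292127232, 27487895552), (1030792151040, 343597383680)] :=
  covD_E kA5_eq (.n 2 (.n 2 (.n 0 (.l 0) (.l 0)) (.l 0)) (.n 0 (.l 0) (.l 0)))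
    [(177811750912, 6013059072), (467292127232, 27487895552), (1030792151040, 343597383680)] rfl (by decide +kernel)
end

mutual
theorem A5_c0_t11 : CovD 1 gA5 [(177811750912, 6013059072), (467292127232, 27487895552), (2061584302080, 687194767360)] :=
  covD_E kA5_eq (.n 2 (.n 2 (.l 0) (.l 0)) (.n 0 (.l 0) (.l 0)))
    [(177811750912, 6013059072), (467292127232, 27487895552), (2061584302080, 687194767360)] rfl (by decide +kernel)
theorem A5_c0_t14 : CovD 1 gA5 [(177811750912, 6013059072), (522267918336, 27487895552), (343597383680, 343597383680)] :=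
  covD_E kA5_eq (.n 1 (.n 2 (.n 2 (.n 2 (.l 0) (.l 0)) (.n 2 (.l 0) (.l 0))) (.n 2 (.n 0 (.l 0) (.l 0)) (.l 0))) (.n 2 (.n 2 (.n 2 (.l 0) (.l 0)) (.n 0 (.l 0) (.l 0))) (.n 2 (.l 0) (.l 0))))
    [(177811750912, 6013059072), (522267918336, 27487895552), (343597383680, 343597383680)] rfl (by decide +kernel)
end

mutual
theorem A5_c0_t15 : CovD 1 gA5 [(177811750912, 6013059072), (522267918336, 27487895552), (1030792151040, 343597383680)] :=
  covD_E kA5_eq (.n 2 (.n 2 (.l 0) (.l 0)) (.n 0 (.l 0) (.l 0)))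
    [(177811750912, 6013059072), (522267918336, 27487895552), (1030792151040, 343597383680)] rfl (by decide +kernel)
theorem A5_c0_t16 : CovD 1 gA5 [(177811750912, 6013059072), (522267918336, 27487895552), (2061584302080, 687194767360)] :=
  covD_E kA5_eq (.n 2 (.n 2 (.l 0) (.l 0)) (.n 0 (.l 0) (.l 0)))
    [(177811750912, 6013059072), (522267918336, 27487895552), (2061584302080, 687194767360)] rfl (by decide +kernel)
end

mutual
theorem A5_c0_t18 : CovD 1 gA5 [(177811750912, 6013059072), (577243709440, 27487895552), (1374389534720, 1374389534720)] :=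
  covD_E kA5_eq (.n 2 (.n 2 (.n 2 (.n 2 (.n 2 (.l 0) (.l 0)) (.n 1 (.l 0) (.l 0))) (.n 2 (.n 0 (.l 0) (.l 0)) (.l 0))) (.n 2 (.n 2 (.l 0) (.l 0)) (.n 0 (.l 0) (.l 0)))) (.n 2 (.n 2 (.l 0) (.l 0)) (.l 0)))
    [(177811750912, 6013059072), (577243709440, 27487895552), (1374389534720, 1374389534720)] rfl (by decide +kernel)
theorem A5_c0_t19 : CovD 1 gA5 [(177811750912, 6013059072), (632219500544, 27487895552), (1374389534720, 1374389534720)] :=
  covD_E kA5_eq (.n 2 (.n 2 (.n 2 (.n 2 (.l 0) (.l 0)) (.n 2 (.l 0) (.l 0))) (.n 2 (.n 0 (.l 0) (.l 0)) (.l 0))) (.n 2 (.n 2 (.l 0) (.l 0)) (.l 0)))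
    [(177811750912, 6013059072), (632219500544, 27487895552), (1374389534720, 1374389534720)] rfl (by decide +kernel)
end

mutual
theorem A5_c0_t24 : CovD 1 gA5 [(189837869056, 6013059072), (467292127232, 27487895552), (343597383680, 343597383680)] :=
  covD_E kA5_eq (.n 1 (.n 2 (.n 2 (.n 2 (.l 0) (.l 0)) (.n 2 (.l 0) (.l 0))) (.n 2 (.n 0 (.l 0) (.l 0)) (.l 0))) (.n 2 (.n 2 (.n 2 (.l 0) (.l 0)) (.n 2 (.l 0) (.l 0))) (.n 2 (.n 0 (.l 0) (.l 0)) (.l 0))))
    [(189837869056, 6013059072), (467292127232, 27487895552), (343597383680, 343597383680)] rfl (by decide +kernel)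
theorem A5_c0_t25 : CovD 1 gA5 [(189837869056, 6013059072), (467292127232, 27487895552), (1030792151040, 343597383680)] :=
  covD_E kA5_eq (.n 2 (.n 2 (.n 0 (.l 0) (.l 0)) (.l 0)) (.n 0 (.l 0) (.l 0)))
    [(189837869056, 6013059072), (467292127232, 27487895552), (1030792151040, 343597383680)] rfl (by decide +kernel)
end

mutual
theorem A5_c0_t26 : CovD 1 gA5 [(189837869056, 6013059072), (467292127232, 27487895552), (2061584302080, 687194767360)] :=
  covD_E kA5_eq (.n 2 (.n 2 (.l 0) (.l 0)) (.n 0 (.l 0) (.l 0)))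
    [(189837869056, 6013059072), (467292127232, 27487895552), (2061584302080, 687194767360)] rfl (by decide +kernel)
theorem A5_c0_t29 : CovD 1 gA5 [(189837869056, 6013059072), (522267918336, 27487895552), (343597383680, 343597383680)] :=
  covD_E kA5_eq (.n 1 (.n 2 (.n 2 (.n 2 (.l 0) (.l 0)) (.n 2 (.l 0) (.l 0))) (.n 2 (.n 0 (.l 0) (.l 0)) (.l 0))) (.n 2 (.n 2 (.n 2 (.l 0) (.l 0)) (.n 2 (.l 0) (.l 0))) (.n 2 (.l 0) (.l 0))))
    [(189837869056, 6013059072), (522267918336, 27487895552), (343597383680, 343597383680)] rfl (by decide +kernel)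
end

mutual
theorem A5_c0_t30 : CovD 1 gA5 [(189837869056, 6013059072), (522267918336, 27487895552), (1030792151040, 343597383680)] :=
  covD_E kA5_eq (.n 2 (.n 2 (.n 0 (.l 0) (.l 0)) (.l 0)) (.n 0 (.l 0) (.l 0)))
    [(189837869056, 6013059072), (522267918336, 27487895552), (1030792151040, 343597383680)] rfl (by decide +kernel)
theorem A5_c0_t31 : CovD 1 gA5 [(189837869056, 6013059072), (522267918336, 27487895552), (2061584302080, 687194767360)] :=
  covD_E kA5_eq (.n 2 (.n 2 (.l 0) (.l 0)) (.n 0 (.l 0) (.l 0)))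
    [(189837869056, 6013059072), (522267918336, 27487895552), (2061584302080, 687194767360)] rfl (by decide +kernel)
end

mutual
theorem A5_c0_t33 : CovD 1 gA5 [(189837869056, 6013059072), (577243709440, 27487895552), (1374389534720, 1374389534720)] :=
  covD_E kA5_eq (.n 2 (.n 2 (.n 2 (.n 2 (.n 2 (.l 0) (.l 0)) (.n 1 (.l 0) (.l 0))) (.n 2 (.n 0 (.l 0) (.l 0)) (.l 0))) (.n 2 (.n 2 (.l 0) (.l 0)) (.n 0 (.l 0) (.l 0)))) (.n 2 (.n 2 (.l 0) (.l 0)) (.n 0 (.l 0) (.l 0))))
    [(189837869056, 6013059072), (577243709440, 27487895552), (1374389534720, 1374389534720)] rfl (by decide +kernel)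
theorem A5_c0_t34 : CovD 1 gA5 [(189837869056, 6013059072), (632219500544, 27487895552), (1374389534720, 1374389534720)] :=
  covD_E kA5_eq (.n 2 (.n 2 (.n 2 (.n 2 (.l 0) (.l 0)) (.n 2 (.l 0) (.l 0))) (.n 2 (.n 0 (.l 0) (.l 0)) (.l 0))) (.n 2 (.n 2 (.l 0) (.l 0)) (.l 0)))
    [(189837869056, 6013059072), (632219500544, 27487895552), (1374389534720, 1374389534720)] rfl (by decide +kernel)
end

mutual
theorem A5_c0_t41 : CovD 1 gA5 [(201863987200, 6013059072), (453548179456, 13743947776), (343597383680, 343597383680)] :=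
  covD_E kA5_eq (.n 2 (.n 2 (.n 0 (.n 2 (.l 0) (.l 0)) (.n 2 (.l 0) (.l 0))) (.n 2 (.l 0) (.l 0))) (.n 2 (.n 2 (.l 0) (.l 0)) (.l 0)))
    [(201863987200, 6013059072), (453548179456, 13743947776), (343597383680, 343597383680)] rfl (by decide +kernel)
theorem A5_c0_t42 : CovD 1 gA5 [(201863987200, 6013059072), (481036075008, 13743947776), (343597383680, 343597383680)] :=
  covD_E kA5_eq (.n 2 (.n 2 (.n 0 (.n 2 (.l 0) (.l 0)) (.n 2 (.l 0) (.l 0))) (.n 2 (.n 0 (.l 0) (.l 0)) (.l 0))) (.n 2 (.n 2 (.l 0) (.l 0)) (.l 0)))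
    [(201863987200, 6013059072), (481036075008, 13743947776), (343597383680, 343597383680)] rfl (by decide +kernel)
end

mutual
theorem A5_c0_t43 : CovD 1 gA5 [(201863987200, 6013059072), (467292127232, 27487895552), (1030792151040, 343597383680)] :=
  covD_E kA5_eq (.n 2 (.n 2 (.n 0 (.l 0) (.l 0)) (.l 0)) (.n 1 (.l 0) (.l 0)))
    [(201863987200, 6013059072), (467292127232, 27487895552), (1030792151040, 343597383680)] rfl (by decide +kernel)
theorem A5_c0_t44 : CovD 1 gA5 [(201863987200, 6013059072), (467292127232, 27487895552), (2061584302080, 687194767360)] :=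
  covD_E kA5_eq (.n 2 (.n 2 (.l 0) (.l 0)) (.n 0 (.l 0) (.l 0)))
    [(201863987200, 6013059072), (467292127232, 27487895552), (2061584302080, 687194767360)] rfl (by decide +kernel)
end

mutual
theorem A5_c0_t47 : CovD 1 gA5 [(201863987200, 6013059072), (522267918336, 27487895552), (343597383680, 343597383680)] :=
  covD_E kA5_eq (.n 1 (.n 2 (.n 2 (.n 2 (.l 0) (.l 0)) (.n 2 (.l 0) (.l 0))) (.n 2 (.n 0 (.l 0) (.l 0)) (.l 0))) (.n 2 (.n 2 (.n 2 (.l 0) (.l 0)) (.n 2 (.l 0) (.l 0))) (.n 2 (.l 0) (.l 0))))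
    [(201863987200, 6013059072), (522267918336, 27487895552), (343597383680, 343597383680)] rfl (by decide +kernel)
theorem A5_c0_t48 : CovD 1 gA5 [(201863987200, 6013059072), (522267918336, 27487895552), (1030792151040, 343597383680)] :=
  covD_E kA5_eq (.n 2 (.n 2 (.n 0 (.l 0) (.l 0)) (.l 0)) (.n 0 (.l 0) (.l 0)))
    [(201863987200, 6013059072), (522267918336, 27487895552), (1030792151040, 343597383680)] rfl (by decide +kernel)
end

mutual
theorem A5_c0_t49 : CovD 1 gA5 [(201863987200, 6013059072), (522267918336, 27487895552), (2061584302080, 687194767360)] :=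
  covD_E kA5_eq (.n 2 (.n 2 (.l 0) (.l 0)) (.n 0 (.l 0) (.l 0)))
    [(201863987200, 6013059072), (522267918336, 27487895552), (2061584302080, 687194767360)] rfl (by decide +kernel)
theorem A5_c0_t53 : CovD 1 gA5 [(213890105344, 6013059072), (453548179456, 13743947776), (687194767360, 687194767360)] :=
  covD_E kA5_eq (.n 2 (.n 2 (.n 2 (.n 2 (.n 2 (.l 0) (.l 0)) (.n 2 (.l 0) (.l 0))) (.n 1 (.n 2 (.l 0) (.l 0)) (.n 2 (.l 0) (.l 0)))) (.n 2 (.n 2 (.l 0) (.l 0)) (.n 0 (.l 0) (.l 0)))) (.n 2 (.n 2 (.l 0) (.l 0)) (.l 0)))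
    [(213890105344, 6013059072), (453548179456, 13743947776), (687194767360, 687194767360)] rfl (by decide +kernel)
end

mutual
theorem A5_c0_t54 : CovD 1 gA5 [(213890105344, 6013059072), (481036075008, 13743947776), (687194767360, 687194767360)] :=
  covD_E kA5_eq (.n 2 (.n 2 (.n 2 (.n 2 (.n 2 (.l 0) (.l 0)) (.n 2 (.l 0) (.l 0))) (.n 1 (.n 2 (.l 0) (.l 0)) (.n 2 (.l 0) (.l 0)))) (.n 2 (.n 2 (.l 0) (.l 0)) (.n 0 (.l 0) (.l 0)))) (.n 2 (.n 2 (.l 0) (.l 0)) (.l 0)))
    [(213890105344, 6013059072), (481036075008, 13743947776), (687194767360, 687194767360)] rfl (by decide +kernel)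
theorem A5_c0_t55 : CovD 1 gA5 [(213890105344, 6013059072), (467292127232, 27487895552), (2061584302080, 687194767360)] :=
  covD_E kA5_eq (.n 2 (.n 2 (.l 0) (.l 0)) (.n 1 (.l 0) (.l 0)))
    [(213890105344, 6013059072), (467292127232, 27487895552), (2061584302080, 687194767360)] rfl (by decide +kernel)
end

mutual
theorem A5_c0_t59 : CovD 1 gA5 [(213890105344, 6013059072), (508523970560, 13743947776), (343597383680, 343597383680)] :=
  covD_E kA5_eq (.n 2 (.n 2 (.n 0 (.n 2 (.l 0) (.l 0)) (.n 2 (.l 0) (.l 0))) (.n 2 (.n 0 (.l 0) (.l 0)) (.l 0))) (.n 2 (.n 2 (.l 0) (.l 0)) (.l 0)))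
    [(213890105344, 6013059072), (508523970560, 13743947776), (343597383680, 343597383680)] rfl (by decide +kernel)
theorem A5_c0_t60 : CovD 1 gA5 [(213890105344, 6013059072), (536011866112, 13743947776), (343597383680, 343597383680)] :=
  covD_E kA5_eq (.n 2 (.n 2 (.n 2 (.l 0) (.l 0)) (.n 2 (.l 0) (.l 0))) (.n 2 (.n 0 (.l 0) (.l 0)) (.l 0)))
    [(213890105344, 6013059072), (536011866112, 13743947776), (343597383680, 343597383680)] rfl (by decide +kernel)
end

mutual
theorem A5_c0_t61 : CovD 1 gA5 [(213890105344, 6013059072), (522267918336, 27487895552), (1030792151040, 343597383680)] :=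
  covD_E kA5_eq (.n 2 (.n 2 (.n 0 (.l 0) (.l 0)) (.l 0)) (.n 1 (.l 0) (.l 0)))
    [(213890105344, 6013059072), (522267918336, 27487895552), (1030792151040, 343597383680)] rfl (by decide +kernel)
theorem A5_c0_t62 : CovD 1 gA5 [(213890105344, 6013059072), (522267918336, 27487895552), (2061584302080, 687194767360)] :=
  covD_E kA5_eq (.n 2 (.n 2 (.l 0) (.l 0)) (.n 0 (.l 0) (.l 0)))
    [(213890105344, 6013059072), (522267918336, 27487895552), (2061584302080, 687194767360)] rfl (by decide +kernel)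
end

mutual
theorem A5_c0_t65 : CovD 1 gA5 [(201863987200, 6013059072), (577243709440, 27487895552), (1374389534720, 1374389534720)] :=
  covD_E kA5_eq (.n 2 (.n 2 (.n 2 (.n 2 (.n 2 (.l 0) (.l 0)) (.n 1 (.l 0) (.l 0))) (.n 2 (.n 0 (.l 0) (.l 0)) (.l 0))) (.n 2 (.n 2 (.l 0) (.l 0)) (.n 0 (.l 0) (.l 0)))) (.n 2 (.n 2 (.l 0) (.l 0)) (.n 0 (.l 0) (.l 0))))
    [(201863987200, 6013059072), (577243709440, 27487895552), (1374389534720, 1374389534720)] rfl (by decide +kernel)
theorem A5_c0_t66 : CovD 1 gA5 [(213890105344, 6013059072), (577243709440, 27487895552), (1374389534720, 1374389534720)] :=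
  covD_E kA5_eq (.n 2 (.n 2 (.n 2 (.n 2 (.n 2 (.l 0) (.l 0)) (.n 1 (.l 0) (.l 0))) (.n 0 (.n 2 (.l 0) (.l 0)) (.n 2 (.l 0) (.l 0)))) (.n 2 (.n 2 (.l 0) (.l 0)) (.n 0 (.l 0) (.l 0)))) (.n 2 (.n 2 (.l 0) (.l 0)) (.n 0 (.l 0) (.l 0))))
    [(213890105344, 6013059072), (577243709440, 27487895552), (1374389534720, 1374389534720)] rfl (by decide +kernel)
end

mutual
theorem A5_c0_t68 : CovD 1 gA5 [(207877046272, 12026118144), (632219500544, 27487895552), (687194767360, 687194767360)] :=
  covD_E kA5_eq (.n 0 (.n 2 (.n 2 (.n 2 (.l 0) (.l 0)) (.n 2 (.l 0) (.l 0))) (.n 2 (.n 0 (.l 0) (.l 0)) (.l 0))) (.n 2 (.n 2 (.n 2 (.l 0) (.l 0)) (.n 2 (.l 0) (.l 0))) (.n 2 (.n 0 (.l 0) (.l 0)) (.l 0))))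
    [(207877046272, 12026118144), (632219500544, 27487895552), (687194767360, 687194767360)] rfl (by decide +kernel)
theorem A5_c0_t69 : CovD 1 gA5 [(207877046272, 12026118144), (632219500544, 27487895552), (2061584302080, 687194767360)] :=
  covD_E kA5_eq (.n 2 (.n 0 (.n 2 (.l 0) (.l 0)) (.n 2 (.l 0) (.l 0))) (.n 2 (.l 0) (.l 0)))
    [(207877046272, 12026118144), (632219500544, 27487895552), (2061584302080, 687194767360)] rfl (by decide +kernel)
end

mutual
theorem A5_c0_t72 : CovD 1 gA5 [(183824809984, 12026118144), (494780022784, 54975791104), (4123168604160, 1374389534720)] :=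
  covD_E kA5_eq (.n 0 (.n 1 (.n 2 (.n 2 (.l 0) (.l 0)) (.n 2 (.l 0) (.l 0))) (.n 2 (.n 2 (.l 0) (.l 0)) (.n 0 (.l 0) (.l 0)))) (.n 1 (.n 2 (.n 2 (.l 0) (.l 0)) (.n 0 (.l 0) (.l 0))) (.n 2 (.n 2 (.l 0) (.l 0)) (.n 0 (.l 0) (.l 0)))))
    [(183824809984, 12026118144), (494780022784, 54975791104), (4123168604160, 1374389534720)] rfl (by decide +kernel)
theorem A5_c0_t73 : CovD 1 gA5 [(183824809984, 12026118144), (604731604992, 54975791104), (4123168604160, 1374389534720)] :=
  covD_E kA5_eq (.n 1 (.n 2 (.n 0 (.n 2 (.l 0) (.l 0)) (.n 2 (.l 0) (.l 0))) (.n 2 (.n 0 (.l 0) (.l 0)) (.l 0))) (.n 2 (.n 0 (.n 2 (.l 0) (.l 0)) (.n 2 (.l 0) (.l 0))) (.n 2 (.l 0) (.l 0))))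
    [(183824809984, 12026118144), (604731604992, 54975791104), (4123168604160, 1374389534720)] rfl (by decide +kernel)
end

mutual
theorem A5_c0_t75 : CovD 1 gA5 [(207877046272, 12026118144), (494780022784, 54975791104), (4123168604160, 1374389534720)] :=
  covD_E kA5_eq (.n 0 (.n 1 (.n 2 (.n 2 (.l 0) (.l 0)) (.n 0 (.l 0) (.l 0))) (.n 2 (.n 2 (.l 0) (.l 0)) (.n 0 (.l 0) (.l 0)))) (.n 1 (.n 2 (.n 2 (.l 0) (.l 0)) (.n 1 (.l 0) (.l 0))) (.n 2 (.n 2 (.l 0) (.l 0)) (.n 1 (.l 0) (.l 0)))))
    [(207877046272, 12026118144), (494780022784, 54975791104), (4123168604160, 1374389534720)] rfl (by decide +kernel)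
theorem A5_c0_t76 : CovD 1 gA5 [(207877046272, 12026118144), (604731604992, 54975791104), (4123168604160, 1374389534720)] :=
  covD_E kA5_eq (.n 1 (.n 2 (.n 0 (.n 2 (.l 0) (.l 0)) (.n 2 (.l 0) (.l 0))) (.n 2 (.n 0 (.l 0) (.l 0)) (.l 0))) (.n 2 (.n 0 (.n 2 (.l 0) (.l 0)) (.n 2 (.l 0) (.l 0))) (.n 2 (.l 0) (.l 0))))
    [(207877046272, 12026118144), (604731604992, 54975791104), (4123168604160, 1374389534720)] rfl (by decide +kernel)
end

mutual
theorem A5_c0_t80 : CovD 1 gA5 [(183824809984, 12026118144), (467292127232, 27487895552), (8246337208320, 2748779069440)] :=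
  covD_E kA5_eq (.n 0 (.n 0 (.n 2 (.n 2 (.n 2 (.l 0) (.l 0)) (.n 0 (.n 1 (.l 1) (.l 0)) (.l 0))) (.n 2 (.n 0 (.l 1) (.l 0)) (.l 1))) (.n 2 (.n 2 (.l 0) (.l 0)) (.n 0 (.l 0) (.l 0)))) (.n 2 (.n 2 (.l 0) (.l 0)) (.n 0 (.l 0) (.l 0))))
    [(183824809984, 12026118144), (467292127232, 27487895552), (8246337208320, 2748779069440)] rfl (by decide +kernel)
theorem A5_c0_t81 : CovD 1 gA5 [(183824809984, 12026118144), (522267918336, 27487895552), (8246337208320, 2748779069440)] :=
  covD_E kA5_eq (.n 2 (.n 0 (.n 2 (.l 0) (.l 0)) (.n 2 (.l 0) (.l 0))) (.n 2 (.l 0) (.l 0)))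
    [(183824809984, 12026118144), (522267918336, 27487895552), (8246337208320, 2748779069440)] rfl (by decide +kernel)
end

mutual
theorem A5_c0_t82 : CovD 1 gA5 [(183824809984, 12026118144), (604731604992, 54975791104), (8246337208320, 2748779069440)] :=
  covD_E kA5_eq (.n 1 (.n 2 (.n 0 (.n 2 (.l 0) (.l 0)) (.n 2 (.l 0) (.l 0))) (.n 2 (.l 0) (.l 0))) (.n 2 (.n 0 (.n 2 (.l 0) (.l 0)) (.n 2 (.l 0) (.l 0))) (.n 2 (.l 0) (.l 0))))
    [(183824809984, 12026118144), (604731604992, 54975791104), (8246337208320, 2748779069440)] rfl (by decide +kernel)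
theorem A5_c0_t84 : CovD 1 gA5 [(207877046272, 12026118144), (494780022784, 54975791104), (8246337208320, 2748779069440)] :=
  covD_E kA5_eq (.n 1 (.n 2 (.n 0 (.n 2 (.l 0) (.l 0)) (.n 2 (.l 0) (.l 0))) (.n 2 (.n 0 (.l 0) (.l 0)) (.l 0))) (.n 2 (.n 0 (.n 2 (.l 0) (.l 0)) (.n 2 (.l 0) (.l 0))) (.n 2 (.n 0 (.l 0) (.l 0)) (.l 0))))
    [(207877046272, 12026118144), (494780022784, 54975791104), (8246337208320, 2748779069440)] rfl (by decide +kernel)
end

mutual
theorem A5_c0_t85 : CovD 1 gA5 [(207877046272, 12026118144), (604731604992, 54975791104), (8246337208320, 2748779069440)] :=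
  covD_E kA5_eq (.n 1 (.n 2 (.n 0 (.n 2 (.l 0) (.l 0)) (.n 2 (.l 0) (.l 0))) (.n 2 (.l 0) (.l 0))) (.n 2 (.n 0 (.n 2 (.l 0) (.l 0)) (.n 2 (.l 0) (.l 0))) (.n 2 (.l 0) (.l 0))))
    [(207877046272, 12026118144), (604731604992, 54975791104), (8246337208320, 2748779069440)] rfl (by decide +kernel)
theorem A5_c0_t91 : CovD 1 gA5 [(183824809984, 12026118144), (687195291648, 27487895552), (1374389534720, 1374389534720)] :=
  covD_E kA5_eq (.n 2 (.n 0 (.n 2 (.n 2 (.l 0) (.l 0)) (.n 2 (.l 0) (.l 0))) (.n 2 (.n 2 (.l 0) (.l 0)) (.n 2 (.l 0) (.l 0)))) (.n 2 (.n 2 (.n 0 (.l 0) (.l 0)) (.l 0)) (.n 0 (.l 0) (.l 0))))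
    [(183824809984, 12026118144), (687195291648, 27487895552), (1374389534720, 1374389534720)] rfl (by decide +kernel)
end

mutual
theorem A5_c0_t92 : CovD 1 gA5 [(183824809984, 12026118144), (687195291648, 27487895552), (4123168604160, 1374389534720)] :=
  covD_E kA5_eq (.n 0 (.n 2 (.n 2 (.l 0) (.l 0)) (.l 0)) (.n 2 (.n 2 (.l 0) (.l 0)) (.l 0)))
    [(183824809984, 12026118144), (687195291648, 27487895552), (4123168604160, 1374389534720)] rfl (by decide +kernel)
theorem A5_c0_t93 : CovD 1 gA5 [(183824809984, 12026118144), (687195291648, 27487895552), (8246337208320, 2748779069440)] :=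
  covD_E kA5_eq (.n 2 (.n 2 (.n 0 (.l 0) (.l 0)) (.l 0)) (.n 0 (.l 0) (.l 0)))
    [(183824809984, 12026118144), (687195291648, 27487895552), (8246337208320, 2748779069440)] rfl (by decide +kernel)
end

mutual
theorem A5_c0_t96 : CovD 1 gA5 [(183824809984, 12026118144), (742171082752, 27487895552), (1374389534720, 1374389534720)] :=
  covD_E kA5_eq (.n 2 (.n 0 (.n 2 (.n 2 (.l 0) (.l 0)) (.n 2 (.l 0) (.l 0))) (.n 2 (.n 2 (.l 0) (.l 0)) (.n 2 (.l 0) (.l 0)))) (.n 2 (.n 2 (.l 0) (.l 0)) (.n 0 (.l 0) (.l 0))))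
    [(183824809984, 12026118144), (742171082752, 27487895552), (1374389534720, 1374389534720)] rfl (by decide +kernel)
theorem A5_c0_t97 : CovD 1 gA5 [(183824809984, 12026118144), (742171082752, 27487895552), (4123168604160, 1374389534720)] :=
  covD_E kA5_eq (.n 2 (.n 2 (.n 0 (.l 0) (.l 0)) (.l 0)) (.n 0 (.l 0) (.l 0)))
    [(183824809984, 12026118144), (742171082752, 27487895552), (4123168604160, 1374389534720)] rfl (by decide +kernel)
end

mutual
theorem A5_c0_t98 : CovD 1 gA5 [(183824809984, 12026118144), (742171082752, 27487895552), (8246337208320, 2748779069440)] :=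
  covD_E kA5_eq (.n 2 (.n 2 (.n 0 (.l 0) (.l 0)) (.l 0)) (.n 0 (.l 0) (.l 0)))
    [(183824809984, 12026118144), (742171082752, 27487895552), (8246337208320, 2748779069440)] rfl (by decide +kernel)
theorem A5_c0_t100 : CovD 1 gA5 [(177811750912, 6013059072), (824634769408, 54975791104), (5497558138880, 5497558138880)] :=
  covD_E kA5_eq (.n 2 (.n 2 (.n 2 (.n 2 (.n 2 (.l 0) (.l 0)) (.n 2 (.l 0) (.l 0))) (.n 1 (.n 2 (.l 0) (.l 0)) (.n 2 (.l 0) (.l 0)))) (.n 2 (.n 2 (.l 0) (.l 0)) (.n 0 (.l 0) (.l 0)))) (.n 2 (.n 2 (.l 0) (.l 0)) (.n 0 (.l 0) (.l 0))))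
    [(177811750912, 6013059072), (824634769408, 54975791104), (5497558138880, 5497558138880)] rfl (by decide +kernel)
end

mutual
theorem A5_c0_t101 : CovD 1 gA5 [(189837869056, 6013059072), (824634769408, 54975791104), (5497558138880, 5497558138880)] :=
  covD_E kA5_eq (.n 2 (.n 2 (.n 2 (.n 2 (.n 2 (.l 0) (.l 0)) (.n 2 (.l 0) (.l 0))) (.n 1 (.n 2 (.l 0) (.l 0)) (.n 2 (.l 0) (.l 0)))) (.n 2 (.n 2 (.l 0) (.l 0)) (.n 1 (.l 0) (.l 0)))) (.n 2 (.n 2 (.l 0) (.l 0)) (.n 1 (.l 0) (.l 0))))
    [(189837869056, 6013059072), (824634769408, 54975791104), (5497558138880, 5497558138880)] rfl (by decide +kernel)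
theorem A5_c0_t106 : CovD 1 gA5 [(207877046272, 12026118144), (687195291648, 27487895552), (1374389534720, 1374389534720)] :=
  covD_E kA5_eq (.n 2 (.n 0 (.n 2 (.n 2 (.l 0) (.l 0)) (.n 2 (.l 0) (.l 0))) (.n 2 (.n 2 (.l 0) (.l 0)) (.n 2 (.l 0) (.l 0)))) (.n 2 (.n 2 (.n 0 (.l 0) (.l 0)) (.l 0)) (.n 0 (.l 0) (.l 0))))
    [(207877046272, 12026118144), (687195291648, 27487895552), (1374389534720, 1374389534720)] rfl (by decide +kernel)
end

mutual
theorem A5_c0_t107 : CovD 1 gA5 [(207877046272, 12026118144), (687195291648, 27487895552), (4123168604160, 1374389534720)] :=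
  covD_E kA5_eq (.n 2 (.n 2 (.n 0 (.l 0) (.l 0)) (.l 0)) (.n 2 (.l 0) (.l 0)))
    [(207877046272, 12026118144), (687195291648, 27487895552), (4123168604160, 1374389534720)] rfl (by decide +kernel)
theorem A5_c0_t108 : CovD 1 gA5 [(207877046272, 12026118144), (687195291648, 27487895552), (8246337208320, 2748779069440)] :=
  covD_E kA5_eq (.n 2 (.n 2 (.n 0 (.l 0) (.l 0)) (.l 0)) (.n 0 (.l 0) (.l 0)))
    [(207877046272, 12026118144), (687195291648, 27487895552), (8246337208320, 2748779069440)] rfl (by decide +kernel)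
end

mutual
theorem A5_c0_t110 : CovD 1 gA5 [(207877046272, 12026118144), (742171082752, 27487895552), (2748779069440, 2748779069440)] :=
  covD_E kA5_eq (.n 2 (.n 2 (.n 2 (.n 0 (.n 2 (.l 0) (.l 0)) (.n 2 (.l 0) (.l 0))) (.n 2 (.n 0 (.l 0) (.l 0)) (.l 0))) (.n 2 (.n 2 (.l 0) (.l 0)) (.n 0 (.l 0) (.l 0)))) (.n 2 (.n 2 (.n 0 (.l 0) (.l 0)) (.l 0)) (.n 0 (.l 0) (.l 0))))
    [(207877046272, 12026118144), (742171082752, 27487895552), (2748779069440, 2748779069440)] rfl (by decide +kernel)
theorem A5_c0_t111 : CovD 1 gA5 [(207877046272, 12026118144), (742171082752, 27487895552), (8246337208320, 2748779069440)] :=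
  covD_E kA5_eq (.n 2 (.n 2 (.n 0 (.l 0) (.l 0)) (.l 0)) (.n 0 (.l 0) (.l 0)))
    [(207877046272, 12026118144), (742171082752, 27487895552), (8246337208320, 2748779069440)] rfl (by decide +kernel)
end

mutual
theorem A5_c0_t113 : CovD 1 gA5 [(207877046272, 12026118144), (797146873856, 27487895552), (5497558138880, 5497558138880)] :=
  covD_E kA5_eq (.n 2 (.n 2 (.n 2 (.n 2 (.n 2 (.l 0) (.l 0)) (.n 2 (.l 0) (.l 0))) (.n 0 (.n 2 (.l 0) (.l 0)) (.n 2 (.l 0) (.l 0)))) (.n 2 (.n 2 (.l 0) (.l 0)) (.n 0 (.l 0) (.l 0)))) (.n 2 (.n 2 (.l 0) (.l 0)) (.n 0 (.l 0) (.l 0))))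
    [(207877046272, 12026118144), (797146873856, 27487895552), (5497558138880, 5497558138880)] rfl (by decide +kernel)
theorem A5_c0_t114 : CovD 1 gA5 [(207877046272, 12026118144), (852122664960, 27487895552), (5497558138880, 5497558138880)] :=
  covD_E kA5_eq (.n 2 (.n 2 (.n 2 (.n 2 (.n 2 (.l 0) (.l 0)) (.n 2 (.l 0) (.l 0))) (.n 2 (.n 0 (.l 0) (.l 0)) (.l 0))) (.n 2 (.n 2 (.l 0) (.l 0)) (.n 0 (.l 0) (.l 0)))) (.n 2 (.n 2 (.l 0) (.l 0)) (.n 0 (.l 0) (.l 0))))
    [(207877046272, 12026118144), (852122664960, 27487895552), (5497558138880, 5497558138880)] rfl (by decide +kernel)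
end

theorem A5_c0_t8 : CovD 1 gA5 [(177811750912, 6013059072), (467292127232, 27487895552), (687194767360, 687194767360)] :=
  covD_split 2 (by decide +kernel) A5_c0_t9 A5_c0_t10

theorem A5_c0_t7 : CovD 1 gA5 [(177811750912, 6013059072), (467292127232, 27487895552), (1374389534720, 1374389534720)] :=
  covD_split 2 (by decide +kernel) A5_c0_t8 A5_c0_t11

theorem A5_c0_t13 : CovD 1 gA5 [(177811750912, 6013059072), (522267918336, 27487895552), (687194767360, 687194767360)] :=
  covD_split 2 (by decide +kernel) A5_c0_t14 A5_c0_t15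

theorem A5_c0_t12 : CovD 1 gA5 [(177811750912, 6013059072), (522267918336, 27487895552), (1374389534720, 1374389534720)] :=
  covD_split 2 (by decide +kernel) A5_c0_t13 A5_c0_t16

theorem A5_c0_t6 : CovD 1 gA5 [(177811750912, 6013059072), (494780022784, 54975791104), (1374389534720, 1374389534720)] :=
  covD_split 1 (by decide +kernel) A5_c0_t7 A5_c0_t12

theorem A5_c0_t17 : CovD 1 gA5 [(177811750912, 6013059072), (604731604992, 54975791104), (1374389534720, 1374389534720)] :=
  covD_split 1 (by decide +kernel) A5_c0_t18 A5_c0_t19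

theorem A5_c0_t5 : CovD 1 gA5 [(177811750912, 6013059072), (549755813888, 109951582208), (1374389534720, 1374389534720)] :=
  covD_split 1 (by decide +kernel) A5_c0_t6 A5_c0_t17

theorem A5_c0_t23 : CovD 1 gA5 [(189837869056, 6013059072), (467292127232, 27487895552), (687194767360, 687194767360)] :=
  covD_split 2 (by decide +kernel) A5_c0_t24 A5_c0_t25

theorem A5_c0_t22 : CovD 1 gA5 [(189837869056, 6013059072), (467292127232, 27487895552), (1374389534720, 1374389534720)] :=
  covD_split 2 (by decide +kernel) A5_c0_t23 A5_c0_t26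

theorem A5_c0_t28 : CovD 1 gA5 [(189837869056, 6013059072), (522267918336, 27487895552), (687194767360, 687194767360)] :=
  covD_split 2 (by decide +kernel) A5_c0_t29 A5_c0_t30

theorem A5_c0_t27 : CovD 1 gA5 [(189837869056, 6013059072), (522267918336, 27487895552), (1374389534720, 1374389534720)] :=
  covD_split 2 (by decide +kernel) A5_c0_t28 A5_c0_t31

theorem A5_c0_t21 : CovD 1 gA5 [(189837869056, 6013059072), (494780022784, 54975791104), (1374389534720, 1374389534720)] :=
  covD_split 1 (by decide +kernel) A5_c0_t22 A5_c0_t27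

theorem A5_c0_t32 : CovD 1 gA5 [(189837869056, 6013059072), (604731604992, 54975791104), (1374389534720, 1374389534720)] :=
  covD_split 1 (by decide +kernel) A5_c0_t33 A5_c0_t34

theorem A5_c0_t20 : CovD 1 gA5 [(189837869056, 6013059072), (549755813888, 109951582208), (1374389534720, 1374389534720)] :=
  covD_split 1 (by decide +kernel) A5_c0_t21 A5_c0_t32

theorem A5_c0_t4 : CovD 1 gA5 [(183824809984, 12026118144), (549755813888, 109951582208), (1374389534720, 1374389534720)] :=
  covD_split 0 (by decide +kernel) A5_c0_t5 A5_c0_t20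

theorem A5_c0_t40 : CovD 1 gA5 [(201863987200, 6013059072), (467292127232, 27487895552), (343597383680, 343597383680)] :=
  covD_split 1 (by decide +kernel) A5_c0_t41 A5_c0_t42

theorem A5_c0_t39 : CovD 1 gA5 [(201863987200, 6013059072), (467292127232, 27487895552), (687194767360, 687194767360)] :=
  covD_split 2 (by decide +kernel) A5_c0_t40 A5_c0_t43

theorem A5_c0_t38 : CovD 1 gA5 [(201863987200, 6013059072), (467292127232, 27487895552), (1374389534720, 1374389534720)] :=
  covD_split 2 (by decide +kernel) A5_c0_t39 A5_c0_t44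

theorem A5_c0_t46 : CovD 1 gA5 [(201863987200, 6013059072), (522267918336, 27487895552), (687194767360, 687194767360)] :=
  covD_split 2 (by decide +kernel) A5_c0_t47 A5_c0_t48

theorem A5_c0_t45 : CovD 1 gA5 [(201863987200, 6013059072), (522267918336, 27487895552), (1374389534720, 1374389534720)] :=
  covD_split 2 (by decide +kernel) A5_c0_t46 A5_c0_t49

theorem A5_c0_t37 : CovD 1 gA5 [(201863987200, 6013059072), (494780022784, 54975791104), (1374389534720, 1374389534720)] :=
  covD_split 1 (by decide +kernel) A5_c0_t38 A5_c0_t45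

theorem A5_c0_t52 : CovD 1 gA5 [(213890105344, 6013059072), (467292127232, 27487895552), (687194767360, 687194767360)] :=
  covD_split 1 (by decide +kernel) A5_c0_t53 A5_c0_t54

theorem A5_c0_t51 : CovD 1 gA5 [(213890105344, 6013059072), (467292127232, 27487895552), (1374389534720, 1374389534720)] :=
  covD_split 2 (by decide +kernel) A5_c0_t52 A5_c0_t55

theorem A5_c0_t58 : CovD 1 gA5 [(213890105344, 6013059072), (522267918336, 27487895552), (343597383680, 343597383680)] :=
  covD_split 1 (by decide +kernel) A5_c0_t59 A5_c0_t60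

theorem A5_c0_t57 : CovD 1 gA5 [(213890105344, 6013059072), (522267918336, 27487895552), (687194767360, 687194767360)] :=
  covD_split 2 (by decide +kernel) A5_c0_t58 A5_c0_t61

theorem A5_c0_t56 : CovD 1 gA5 [(213890105344, 6013059072), (522267918336, 27487895552), (1374389534720, 1374389534720)] :=
  covD_split 2 (by decide +kernel) A5_c0_t57 A5_c0_t62

theorem A5_c0_t50 : CovD 1 gA5 [(213890105344, 6013059072), (494780022784, 54975791104), (1374389534720, 1374389534720)] :=
  covD_split 1 (by decide +kernel) A5_c0_t51 A5_c0_t56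

theorem A5_c0_t36 : CovD 1 gA5 [(207877046272, 12026118144), (494780022784, 54975791104), (1374389534720, 1374389534720)] :=
  covD_split 0 (by decide +kernel) A5_c0_t37 A5_c0_t50

theorem A5_c0_t64 : CovD 1 gA5 [(207877046272, 12026118144), (577243709440, 27487895552), (1374389534720, 1374389534720)] :=
  covD_split 0 (by decide +kernel) A5_c0_t65 A5_c0_t66

theorem A5_c0_t67 : CovD 1 gA5 [(207877046272, 12026118144), (632219500544, 27487895552), (1374389534720, 1374389534720)] :=
  covD_split 2 (by decide +kernel) A5_c0_t68 A5_c0_t69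

theorem A5_c0_t63 : CovD 1 gA5 [(207877046272, 12026118144), (604731604992, 54975791104), (1374389534720, 1374389534720)] :=
  covD_split 1 (by decide +kernel) A5_c0_t64 A5_c0_t67

theorem A5_c0_t35 : CovD 1 gA5 [(207877046272, 12026118144), (549755813888, 109951582208), (1374389534720, 1374389534720)] :=
  covD_split 1 (by decide +kernel) A5_c0_t36 A5_c0_t63

theorem A5_c0_t3 : CovD 1 gA5 [(195850928128, 24052236288), (549755813888, 109951582208), (1374389534720, 1374389534720)] :=
  covD_split 0 (by decide +kernel) A5_c0_t4 A5_c0_t35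

theorem A5_c0_t71 : CovD 1 gA5 [(183824809984, 12026118144), (549755813888, 109951582208), (4123168604160, 1374389534720)] :=
  covD_split 1 (by decide +kernel) A5_c0_t72 A5_c0_t73

theorem A5_c0_t74 : CovD 1 gA5 [(207877046272, 12026118144), (549755813888, 109951582208), (4123168604160, 1374389534720)] :=
  covD_split 1 (by decide +kernel) A5_c0_t75 A5_c0_t76

theorem A5_c0_t70 : CovD 1 gA5 [(195850928128, 24052236288), (549755813888, 109951582208), (4123168604160, 1374389534720)] :=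
  covD_split 0 (by decide +kernel) A5_c0_t71 A5_c0_t74

theorem A5_c0_t2 : CovD 1 gA5 [(195850928128, 24052236288), (549755813888, 109951582208), (2748779069440, 2748779069440)] :=
  covD_split 2 (by decide +kernel) A5_c0_t3 A5_c0_t70

theorem A5_c0_t79 : CovD 1 gA5 [(183824809984, 12026118144), (494780022784, 54975791104), (8246337208320, 2748779069440)] :=
  covD_split 1 (by decide +kernel) A5_c0_t80 A5_c0_t81

theorem A5_c0_t78 : CovD 1 gA5 [(183824809984, 12026118144), (549755813888, 109951582208), (8246337208320, 2748779069440)] :=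
  covD_split 1 (by decide +kernel) A5_c0_t79 A5_c0_t82

theorem A5_c0_t83 : CovD 1 gA5 [(207877046272, 12026118144), (549755813888, 109951582208), (8246337208320, 2748779069440)] :=
  covD_split 1 (by decide +kernel) A5_c0_t84 A5_c0_t85

theorem A5_c0_t77 : CovD 1 gA5 [(195850928128, 24052236288), (549755813888, 109951582208), (8246337208320, 2748779069440)] :=
  covD_split 0 (by decide +kernel) A5_c0_t78 A5_c0_t83

theorem A5_c0_t1 : CovD 1 gA5 [(195850928128, 24052236288), (549755813888, 109951582208), (5497558138880, 5497558138880)] :=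
  covD_split 2 (by decide +kernel) A5_c0_t2 A5_c0_t77

theorem A5_c0_t90 : CovD 1 gA5 [(183824809984, 12026118144), (687195291648, 27487895552), (2748779069440, 2748779069440)] :=
  covD_split 2 (by decide +kernel) A5_c0_t91 A5_c0_t92

theorem A5_c0_t89 : CovD 1 gA5 [(183824809984, 12026118144), (687195291648, 27487895552), (5497558138880, 5497558138880)] :=
  covD_split 2 (by decide +kernel) A5_c0_t90 A5_c0_t93

theorem A5_c0_t95 : CovD 1 gA5 [(183824809984, 12026118144), (742171082752, 27487895552), (2748779069440, 2748779069440)] :=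
  covD_split 2 (by decide +kernel) A5_c0_t96 A5_c0_t97

theorem A5_c0_t94 : CovD 1 gA5 [(183824809984, 12026118144), (742171082752, 27487895552), (5497558138880, 5497558138880)] :=
  covD_split 2 (by decide +kernel) A5_c0_t95 A5_c0_t98

theorem A5_c0_t88 : CovD 1 gA5 [(183824809984, 12026118144), (714683187200, 54975791104), (5497558138880, 5497558138880)] :=
  covD_split 1 (by decide +kernel) A5_c0_t89 A5_c0_t94

theorem A5_c0_t99 : CovD 1 gA5 [(183824809984, 12026118144), (824634769408, 54975791104), (5497558138880, 5497558138880)] :=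
  covD_split 0 (by decide +kernel) A5_c0_t100 A5_c0_t101

theorem A5_c0_t87 : CovD 1 gA5 [(183824809984, 12026118144), (769658978304, 109951582208), (5497558138880, 5497558138880)] :=
  covD_split 1 (by decide +kernel) A5_c0_t88 A5_c0_t99

theorem A5_c0_t105 : CovD 1 gA5 [(207877046272, 12026118144), (687195291648, 27487895552), (2748779069440, 2748779069440)] :=
  covD_split 2 (by decide +kernel) A5_c0_t106 A5_c0_t107

theorem A5_c0_t104 : CovD 1 gA5 [(207877046272, 12026118144), (687195291648, 27487895552), (5497558138880, 5497558138880)] :=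
  covD_split 2 (by decide +kernel) A5_c0_t105 A5_c0_t108

theorem A5_c0_t109 : CovD 1 gA5 [(207877046272, 12026118144), (742171082752, 27487895552), (5497558138880, 5497558138880)] :=
  covD_split 2 (by decide +kernel) A5_c0_t110 A5_c0_t111

theorem A5_c0_t103 : CovD 1 gA5 [(207877046272, 12026118144), (714683187200, 54975791104), (5497558138880, 5497558138880)] :=
  covD_split 1 (by decide +kernel) A5_c0_t104 A5_c0_t109

theorem A5_c0_t112 : CovD 1 gA5 [(207877046272, 12026118144), (824634769408, 54975791104), (5497558138880, 5497558138880)] :=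
  covD_split 1 (by decide +kernel) A5_c0_t113 A5_c0_t114

theorem A5_c0_t102 : CovD 1 gA5 [(207877046272, 12026118144), (769658978304, 109951582208), (5497558138880, 5497558138880)] :=
  covD_split 1 (by decide +kernel) A5_c0_t103 A5_c0_t112

theorem A5_c0_t86 : CovD 1 gA5 [(195850928128, 24052236288), (769658978304, 109951582208), (5497558138880, 5497558138880)] :=
  covD_split 0 (by decide +kernel) A5_c0_t87 A5_c0_t102

theorem A5_c0 : CovD 1 gA5 [(195850928128, 24052236288), (659707396096, 219903164416), (5497558138880, 5497558138880)] :=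
  covD_split 1 (by decide +kernel) A5_c0_t1 A5_c0_t86

end Pool.Agent.helper14.NR.E5c
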