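import Pool.Agent.helper14.NR.E5c.PZ

/-!
Generated: certificates.
-/

namespace Pool.Agent.helper14.NR.E5c

open Pool.Agent.helper31.IA (Z)
open Pool.Agent.helper31.IX (Op XOps runX Cov CovD cov_split covD_split)
open Pool.Agent.helper31.IC (TD)
open Pool.Agent.helper63.RG (reloc)
open Pool.Agent.helper63.NF hiding TD
open Pool.Agent.helper14.CF (xE covD_E)
open Pool.Agent.helper14.NR (share)

mutual
theorem Z_c0_t6 : CovD 1 gZ [(183824809984, 12026118144), (467292127232, 27487895552), (137438953472, 137438953472)] :=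
  covD_E kZ_eq (.n 2 (.n 2 (.n 2 (.n 2 (.l 0) (.l 0)) (.n 2 (.l 0) (.l 0))) (.n 0 (.n 2 (.l 0) (.l 0)) (.n 2 (.l 0) (.l 0)))) (.n 2 (.n 2 (.l 0) (.l 0)) (.n 0 (.l 0) (.l 0))))
    [(183824809984, 12026118144), (467292127232, 27487895552), (137438953472, 137438953472)] rfl (by decide +kernel)
theorem Z_c0_t7 : CovD 1 gZ [(183824809984, 12026118144), (467292127232, 27487895552), (412316860416, 137438953472)] :=
  covD_E kZ_eq (.n 2 (.n 2 (.n 0 (.l 0) (.l 0)) (.l 0)) (.n 2 (.l 0) (.l 0)))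
    [(183824809984, 12026118144), (467292127232, 27487895552), (412316860416, 137438953472)] rfl (by decide +kernel)
end

mutual
theorem Z_c0_t8 : CovD 1 gZ [(183824809984, 12026118144), (522267918336, 27487895552), (274877906944, 274877906944)] :=
  covD_E kZ_eq (.n 2 (.n 2 (.n 0 (.n 2 (.n 2 (.l 0) (.l 0)) (.n 2 (.l 0) (.l 0))) (.n 2 (.n 2 (.l 0) (.l 0)) (.n 2 (.l 0) (.l 0)))) (.n 2 (.n 2 (.l 0) (.l 0)) (.n 0 (.l 0) (.l 0)))) (.n 2 (.n 2 (.l 0) (.l 0)) (.n 2 (.l 0) (.l 0))))
    [(183824809984, 12026118144), (522267918336, 27487895552), (274877906944, 274877906944)] rfl (by decide +kernel)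
theorem Z_c0_t9 : CovD 1 gZ [(183824809984, 12026118144), (494780022784, 54975791104), (824633720832, 274877906944)] :=
  covD_E kZ_eq (.n 2 (.n 2 (.n 0 (.n 2 (.l 0) (.l 0)) (.n 2 (.l 0) (.l 0))) (.n 2 (.n 0 (.l 0) (.l 0)) (.l 0))) (.n 2 (.n 2 (.l 0) (.l 0)) (.n 0 (.l 0) (.n 0 (.l 0) (.l 0)))))
    [(183824809984, 12026118144), (494780022784, 54975791104), (824633720832, 274877906944)] rfl (by decide +kernel)
end

mutual
theorem Z_c0_t12 : CovD 1 gZ [(183824809984, 12026118144), (577243709440, 27487895552), (274877906944, 274877906944)] :=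
  covD_E kZ_eq (.n 2 (.n 2 (.n 2 (.n 2 (.l 0) (.l 0)) (.n 2 (.l 0) (.l 0))) (.n 0 (.n 2 (.l 0) (.l 0)) (.n 2 (.l 0) (.l 0)))) (.n 2 (.n 2 (.l 0) (.l 0)) (.n 2 (.l 0) (.l 0))))
    [(183824809984, 12026118144), (577243709440, 27487895552), (274877906944, 274877906944)] rfl (by decide +kernel)
theorem Z_c0_t13 : CovD 1 gZ [(183824809984, 12026118144), (632219500544, 27487895552), (274877906944, 274877906944)] :=
  covD_E kZ_eq (.n 2 (.n 2 (.n 0 (.n 2 (.l 0) (.l 0)) (.n 2 (.l 0) (.l 0))) (.n 2 (.n 0 (.l 0) (.l 0)) (.l 0))) (.n 2 (.n 2 (.l 0) (.l 0)) (.n 2 (.l 0) (.l 0))))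
    [(183824809984, 12026118144), (632219500544, 27487895552), (274877906944, 274877906944)] rfl (by decide +kernel)
end

mutual
theorem Z_c0_t14 : CovD 1 gZ [(183824809984, 12026118144), (604731604992, 54975791104), (824633720832, 274877906944)] :=
  covD_E kZ_eq (.n 2 (.n 2 (.n 0 (.n 0 (.l 0) (.l 0)) (.n 1 (.l 0) (.l 0))) (.n 2 (.n 0 (.l 0) (.l 0)) (.l 0))) (.n 0 (.n 2 (.l 0) (.l 0)) (.n 0 (.n 2 (.l 0) (.l 0)) (.n 2 (.l 0) (.l 0)))))
    [(183824809984, 12026118144), (604731604992, 54975791104), (824633720832, 274877906944)] rfl (by decide +kernel)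
theorem Z_c0_t17 : CovD 1 gZ [(183824809984, 12026118144), (714683187200, 54975791104), (274877906944, 274877906944)] :=
  covD_E kZ_eq (.n 2 (.n 1 (.n 2 (.n 2 (.l 0) (.l 0)) (.n 2 (.l 0) (.l 0))) (.n 2 (.n 2 (.l 0) (.l 0)) (.n 2 (.l 0) (.l 0)))) (.n 2 (.n 0 (.n 2 (.l 0) (.l 0)) (.n 2 (.l 0) (.l 0))) (.n 2 (.l 0) (.l 0))))
    [(183824809984, 12026118144), (714683187200, 54975791104), (274877906944, 274877906944)] rfl (by decide +kernel)
end

mutual
theorem Z_c0_t18 : CovD 1 gZ [(183824809984, 12026118144), (714683187200, 54975791104), (824633720832, 274877906944)] :=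
  covD_E kZ_eq (.n 2 (.n 2 (.n 2 (.l 0) (.l 0)) (.n 2 (.l 0) (.l 0))) (.n 0 (.n 2 (.l 0) (.l 0)) (.n 2 (.l 0) (.n 0 (.l 0) (.l 0)))))
    [(183824809984, 12026118144), (714683187200, 54975791104), (824633720832, 274877906944)] rfl (by decide +kernel)
theorem Z_c0_t19 : CovD 1 gZ [(183824809984, 12026118144), (824634769408, 54975791104), (549755813888, 549755813888)] :=
  covD_E kZ_eq (.n 2 (.n 2 (.n 2 (.n 2 (.l 0) (.l 0)) (.n 2 (.l 0) (.l 0))) (.n 2 (.n 2 (.l 0) (.l 0)) (.n 2 (.l 0) (.l 0)))) (.n 2 (.n 2 (.n 2 (.l 0) (.l 0)) (.n 0 (.l 0) (.l 0))) (.n 0 (.n 2 (.l 0) (.l 0)) (.n 2 (.l 0) (.l 0)))))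
    [(183824809984, 12026118144), (824634769408, 54975791104), (549755813888, 549755813888)] rfl (by decide +kernel)
end

mutual
theorem Z_c0_t26 : CovD 1 gZ [(207877046272, 12026118144), (467292127232, 27487895552), (68719476736, 68719476736)] :=
  covD_E kZ_eq (.n 2 (.n 1 (.n 2 (.n 2 (.l 0) (.l 0)) (.n 2 (.l 0) (.l 0))) (.n 2 (.n 2 (.l 0) (.l 0)) (.n 2 (.l 0) (.l 0)))) (.n 2 (.n 0 (.n 0 (.l 0) (.l 0)) (.n 1 (.l 0) (.l 0))) (.n 2 (.l 0) (.l 0))))
    [(207877046272, 12026118144), (467292127232, 27487895552), (68719476736, 68719476736)] rfl (by decide +kernel)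
theorem Z_c0_t27 : CovD 1 gZ [(207877046272, 12026118144), (467292127232, 27487895552), (206158430208, 68719476736)] :=
  covD_E kZ_eq (.n 2 (.n 2 (.n 0 (.l 0) (.l 0)) (.l 0)) (.n 2 (.l 0) (.l 0)))
    [(207877046272, 12026118144), (467292127232, 27487895552), (206158430208, 68719476736)] rfl (by decide +kernel)
end

mutual
theorem Z_c0_t28 : CovD 1 gZ [(207877046272, 12026118144), (467292127232, 27487895552), (412316860416, 137438953472)] :=
  covD_E kZ_eq (.n 2 (.n 0 (.n 2 (.l 0) (.l 0)) (.n 2 (.l 0) (.l 0))) (.n 2 (.l 0) (.l 0)))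
    [(207877046272, 12026118144), (467292127232, 27487895552), (412316860416, 137438953472)] rfl (by decide +kernel)
theorem Z_c0_t31 : CovD 1 gZ [(207877046272, 12026118144), (522267918336, 27487895552), (68719476736, 68719476736)] :=
  covD_E kZ_eq (.n 2 (.n 1 (.n 2 (.n 2 (.l 0) (.l 0)) (.n 2 (.l 0) (.l 0))) (.n 2 (.n 2 (.l 0) (.l 0)) (.n 2 (.l 0) (.l 0)))) (.n 2 (.n 0 (.n 0 (.l 0) (.l 0)) (.n 1 (.l 0) (.l 0))) (.n 2 (.l 0) (.l 0))))
    [(207877046272, 12026118144), (522267918336, 27487895552), (68719476736, 68719476736)] rfl (by decide +kernel)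
end

mutual
theorem Z_c0_t32 : CovD 1 gZ [(207877046272, 12026118144), (522267918336, 27487895552), (206158430208, 68719476736)] :=
  covD_E kZ_eq (.n 2 (.n 2 (.n 0 (.l 0) (.l 0)) (.l 0)) (.n 2 (.l 0) (.l 0)))
    [(207877046272, 12026118144), (522267918336, 27487895552), (206158430208, 68719476736)] rfl (by decide +kernel)
theorem Z_c0_t33 : CovD 1 gZ [(207877046272, 12026118144), (522267918336, 27487895552), (412316860416, 137438953472)] :=
  covD_E kZ_eq (.n 2 (.n 2 (.n 0 (.l 0) (.l 0)) (.l 0)) (.n 2 (.l 0) (.l 0)))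
    [(207877046272, 12026118144), (522267918336, 27487895552), (412316860416, 137438953472)] rfl (by decide +kernel)
end

mutual
theorem Z_c0_t34 : CovD 1 gZ [(207877046272, 12026118144), (494780022784, 54975791104), (824633720832, 274877906944)] :=
  covD_E kZ_eq (.n 0 (.n 2 (.n 2 (.n 2 (.l 0) (.l 0)) (.n 0 (.l 0) (.l 0))) (.n 0 (.n 2 (.l 0) (.l 0)) (.n 2 (.l 0) (.l 0)))) (.n 2 (.n 2 (.n 2 (.l 0) (.l 0)) (.n 2 (.l 0) (.l 0))) (.n 0 (.n 2 (.l 0) (.l 0)) (.n 2 (.l 0) (.l 0)))))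
    [(207877046272, 12026118144), (494780022784, 54975791104), (824633720832, 274877906944)] rfl (by decide +kernel)
theorem Z_c0_t38 : CovD 1 gZ [(207877046272, 12026118144), (577243709440, 27487895552), (137438953472, 137438953472)] :=
  covD_E kZ_eq (.n 2 (.n 2 (.n 1 (.n 2 (.n 2 (.l 0) (.l 0)) (.n 0 (.l 0) (.l 0))) (.n 2 (.l 0) (.l 0))) (.n 2 (.n 2 (.l 0) (.l 0)) (.n 0 (.l 0) (.l 0)))) (.n 2 (.n 2 (.l 0) (.l 0)) (.n 0 (.l 0) (.l 0))))
    [(207877046272, 12026118144), (577243709440, 27487895552), (137438953472, 137438953472)] rfl (by decide +kernel)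
end

mutual
theorem Z_c0_t39 : CovD 1 gZ [(207877046272, 12026118144), (577243709440, 27487895552), (412316860416, 137438953472)] :=
  covD_E kZ_eq (.n 2 (.n 2 (.n 0 (.l 0) (.l 0)) (.l 0)) (.n 2 (.l 0) (.l 0)))
    [(207877046272, 12026118144), (577243709440, 27487895552), (412316860416, 137438953472)] rfl (by decide +kernel)
theorem Z_c0_t40 : CovD 1 gZ [(207877046272, 12026118144), (632219500544, 27487895552), (274877906944, 274877906944)] :=
  covD_E kZ_eq (.n 2 (.n 2 (.n 2 (.n 2 (.l 0) (.l 0)) (.n 2 (.l 0) (.l 0))) (.n 0 (.n 2 (.l 0) (.l 0)) (.n 2 (.l 0) (.l 0)))) (.n 2 (.n 2 (.l 0) (.l 0)) (.n 2 (.l 0) (.l 0))))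
    [(207877046272, 12026118144), (632219500544, 27487895552), (274877906944, 274877906944)] rfl (by decide +kernel)
end

mutual
theorem Z_c0_t41 : CovD 1 gZ [(207877046272, 12026118144), (604731604992, 54975791104), (824633720832, 274877906944)] :=
  covD_E kZ_eq (.n 0 (.n 2 (.n 2 (.n 2 (.l 0) (.l 0)) (.n 0 (.l 0) (.l 0))) (.n 0 (.n 2 (.l 0) (.l 0)) (.n 2 (.l 0) (.l 0)))) (.n 2 (.n 2 (.n 2 (.l 0) (.l 0)) (.n 0 (.l 0) (.l 0))) (.n 0 (.n 2 (.l 0) (.l 0)) (.n 2 (.l 0) (.l 0)))))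
    [(207877046272, 12026118144), (604731604992, 54975791104), (824633720832, 274877906944)] rfl (by decide +kernel)
theorem Z_c0_t44 : CovD 1 gZ [(207877046272, 12026118144), (687195291648, 27487895552), (549755813888, 549755813888)] :=
  covD_E kZ_eq (.n 2 (.n 2 (.n 2 (.n 2 (.l 0) (.l 0)) (.n 2 (.l 0) (.l 0))) (.n 2 (.n 2 (.l 0) (.l 0)) (.n 2 (.l 0) (.l 0)))) (.n 0 (.n 2 (.n 2 (.l 0) (.l 0)) (.n 2 (.l 0) (.l 0))) (.n 2 (.n 2 (.l 0) (.l 0)) (.n 2 (.l 0) (.l 0)))))
    [(207877046272, 12026118144), (687195291648, 27487895552), (549755813888, 549755813888)] rfl (by decide +kernel)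
end

mutual
theorem Z_c0_t45 : CovD 1 gZ [(207877046272, 12026118144), (742171082752, 27487895552), (549755813888, 549755813888)] :=
  covD_E kZ_eq (.n 2 (.n 2 (.n 2 (.n 2 (.l 0) (.l 0)) (.n 2 (.l 0) (.l 0))) (.n 2 (.n 2 (.l 0) (.l 0)) (.n 0 (.l 0) (.l 0)))) (.n 0 (.n 2 (.n 2 (.l 0) (.l 0)) (.n 2 (.l 0) (.l 0))) (.n 2 (.n 2 (.l 0) (.l 0)) (.n 2 (.l 0) (.l 0)))))
    [(207877046272, 12026118144), (742171082752, 27487895552), (549755813888, 549755813888)] rfl (by decide +kernel)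
theorem Z_c0_t47 : CovD 1 gZ [(207877046272, 12026118144), (824634769408, 54975791104), (274877906944, 274877906944)] :=
  covD_E kZ_eq (.n 2 (.n 2 (.n 2 (.l 0) (.l 0)) (.n 2 (.l 0) (.l 0))) (.n 2 (.n 2 (.l 0) (.l 0)) (.n 2 (.l 0) (.l 0))))
    [(207877046272, 12026118144), (824634769408, 54975791104), (274877906944, 274877906944)] rfl (by decide +kernel)
end

mutual
theorem Z_c0_t48 : CovD 1 gZ [(207877046272, 12026118144), (824634769408, 54975791104), (824633720832, 274877906944)] :=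
  covD_E kZ_eq (.n 2 (.n 2 (.n 2 (.l 0) (.l 0)) (.n 2 (.l 0) (.n 0 (.l 0) (.l 0)))) (.n 0 (.n 2 (.l 0) (.n 0 (.l 0) (.l 0))) (.n 0 (.n 2 (.l 0) (.l 0)) (.n 2 (.l 0) (.l 0)))))
    [(207877046272, 12026118144), (824634769408, 54975791104), (824633720832, 274877906944)] rfl (by decide +kernel)
theorem T_c0 : CovD 1 gT [(195850928128, 24052236288), (659707396096, 219903164416)] :=
  covD_E kT_eq (.l 0)
    [(195850928128, 24052236288), (659707396096, 219903164416)] rfl (by decide +kernel)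
end

theorem S_c0 : CovD 0 gS [(195850928128, 24052236288), (659707396096, 219903164416)] :=
  covD_E kS_eq (.n 0 (.n 1 (.n 1 (.l 0) (.l 0)) (.n 0 (.l 0) (.l 0))) (.n 1 (.n 1 (.n 0 (.l 0) (.l 0)) (.l 0)) (.n 1 (.l 0) (.n 0 (.l 0) (.l 0)))))
    [(195850928128, 24052236288), (659707396096, 219903164416)] rfl (by decide +kernel)

theorem Z_c0_t5 : CovD 1 gZ [(183824809984, 12026118144), (467292127232, 27487895552), (274877906944, 274877906944)] :=
  covD_split 2 (by decide +kernel) Z_c0_t6 Z_c0_t7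

theorem Z_c0_t4 : CovD 1 gZ [(183824809984, 12026118144), (494780022784, 54975791104), (274877906944, 274877906944)] :=
  covD_split 1 (by decide +kernel) Z_c0_t5 Z_c0_t8

theorem Z_c0_t3 : CovD 1 gZ [(183824809984, 12026118144), (494780022784, 54975791104), (549755813888, 549755813888)] :=
  covD_split 2 (by decide +kernel) Z_c0_t4 Z_c0_t9

theorem Z_c0_t11 : CovD 1 gZ [(183824809984, 12026118144), (604731604992, 54975791104), (274877906944, 274877906944)] :=
  covD_split 1 (by decide +kernel) Z_c0_t12 Z_c0_t13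

theorem Z_c0_t10 : CovD 1 gZ [(183824809984, 12026118144), (604731604992, 54975791104), (549755813888, 549755813888)] :=
  covD_split 2 (by decide +kernel) Z_c0_t11 Z_c0_t14

theorem Z_c0_t2 : CovD 1 gZ [(183824809984, 12026118144), (549755813888, 109951582208), (549755813888, 549755813888)] :=
  covD_split 1 (by decide +kernel) Z_c0_t3 Z_c0_t10

theorem Z_c0_t16 : CovD 1 gZ [(183824809984, 12026118144), (714683187200, 54975791104), (549755813888, 549755813888)] :=
  covD_split 2 (by decide +kernel) Z_c0_t17 Z_c0_t18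

theorem Z_c0_t15 : CovD 1 gZ [(183824809984, 12026118144), (769658978304, 109951582208), (549755813888, 549755813888)] :=
  covD_split 1 (by decide +kernel) Z_c0_t16 Z_c0_t19

theorem Z_c0_t1 : CovD 1 gZ [(183824809984, 12026118144), (659707396096, 219903164416), (549755813888, 549755813888)] :=
  covD_split 1 (by decide +kernel) Z_c0_t2 Z_c0_t15

theorem Z_c0_t25 : CovD 1 gZ [(207877046272, 12026118144), (467292127232, 27487895552), (137438953472, 137438953472)] :=
  covD_split 2 (by decide +kernel) Z_c0_t26 Z_c0_t27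

theorem Z_c0_t24 : CovD 1 gZ [(207877046272, 12026118144), (467292127232, 27487895552), (274877906944, 274877906944)] :=
  covD_split 2 (by decide +kernel) Z_c0_t25 Z_c0_t28

theorem Z_c0_t30 : CovD 1 gZ [(207877046272, 12026118144), (522267918336, 27487895552), (137438953472, 137438953472)] :=
  covD_split 2 (by decide +kernel) Z_c0_t31 Z_c0_t32

theorem Z_c0_t29 : CovD 1 gZ [(207877046272, 12026118144), (522267918336, 27487895552), (274877906944, 274877906944)] :=
  covD_split 2 (by decide +kernel) Z_c0_t30 Z_c0_t33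

theorem Z_c0_t23 : CovD 1 gZ [(207877046272, 12026118144), (494780022784, 54975791104), (274877906944, 274877906944)] :=
  covD_split 1 (by decide +kernel) Z_c0_t24 Z_c0_t29

theorem Z_c0_t22 : CovD 1 gZ [(207877046272, 12026118144), (494780022784, 54975791104), (549755813888, 549755813888)] :=
  covD_split 2 (by decide +kernel) Z_c0_t23 Z_c0_t34

theorem Z_c0_t37 : CovD 1 gZ [(207877046272, 12026118144), (577243709440, 27487895552), (274877906944, 274877906944)] :=
  covD_split 2 (by decide +kernel) Z_c0_t38 Z_c0_t39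

theorem Z_c0_t36 : CovD 1 gZ [(207877046272, 12026118144), (604731604992, 54975791104), (274877906944, 274877906944)] :=
  covD_split 1 (by decide +kernel) Z_c0_t37 Z_c0_t40

theorem Z_c0_t35 : CovD 1 gZ [(207877046272, 12026118144), (604731604992, 54975791104), (549755813888, 549755813888)] :=
  covD_split 2 (by decide +kernel) Z_c0_t36 Z_c0_t41

theorem Z_c0_t21 : CovD 1 gZ [(207877046272, 12026118144), (549755813888, 109951582208), (549755813888, 549755813888)] :=
  covD_split 1 (by decide +kernel) Z_c0_t22 Z_c0_t35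

theorem Z_c0_t43 : CovD 1 gZ [(207877046272, 12026118144), (714683187200, 54975791104), (549755813888, 549755813888)] :=
  covD_split 1 (by decide +kernel) Z_c0_t44 Z_c0_t45

theorem Z_c0_t46 : CovD 1 gZ [(207877046272, 12026118144), (824634769408, 54975791104), (549755813888, 549755813888)] :=
  covD_split 2 (by decide +kernel) Z_c0_t47 Z_c0_t48

theorem Z_c0_t42 : CovD 1 gZ [(207877046272, 12026118144), (769658978304, 109951582208), (549755813888, 549755813888)] :=
  covD_split 1 (by decide +kernel) Z_c0_t43 Z_c0_t46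

theorem Z_c0_t20 : CovD 1 gZ [(207877046272, 12026118144), (659707396096, 219903164416), (549755813888, 549755813888)] :=
  covD_split 1 (by decide +kernel) Z_c0_t21 Z_c0_t42

theorem Z_c0 : CovD 1 gZ [(195850928128, 24052236288), (659707396096, 219903164416), (549755813888, 549755813888)] :=
  covD_split 0 (by decide +kernel) Z_c0_t1 Z_c0_t20

end Pool.Agent.helper14.NR.E5c
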