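import Pool.Agent.helper63.NF.Cert

/-!
Generated: table E5c.
-/

namespace Pool.Agent.helper14.NR.E5c

open Pool.Agent.helper63.NF

def tab : TD where
  strip := false
  bm := none
  ec := 195957882880
  bc := 661424963584
  H := [[[50739368128, 58058227584, -17023350464, -13394224512], [299158211840, 233963278848, 76176043136], [95688793024, -1532307468864], [17371833090176]], [[9657347520, -27587650368, 2437454976], [-22542176320, -173857746560], [141999000192]], [[-8325239936, 2828499008], [-12829621568]], [[1373271360]], [[-94662208]]]
  pol := none
  a := [[[63692603392, 57110560768, 336100458496, -971080007680], [-520156151808, -626922749952]], [[65267236864, -1163198464, 10027008, 2555904], [-3923443712, -6452543488]], [[66157346816, -243597312, 8560181248, 41979084800], [-738983936, -85996863488]], [[51622051840, -18301386752, 149126643712, 718754480128], [-103566934016, -150211395584]], [[39653736448, 55284924416, 430421245952, -1528779440128], [-113985847296, -59838955520]], [[66907537408, 34157035520, 350500225024, -1031444955136], [29650255872, -36664442880]]]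
  j := [-3435973836800, 1924145348608, 3985729650688, 4672924418048, 4810363371520, 6184752906240]
  c := [879662989312, 879662989312, 659814350848, 549755813888, 439697276928, 329907175424]
  M := [[[[1138869075968, 219842412544, 228564205568], [342117384192, 2892648284160], [-2543871393792]], [[539565948928, 79527084032], [5704573124608]], [[511062245376, -208934993920], [-7060887502848]], [[-1230018183168]], [[939348525056]], [[-396559581184]]], [[[1131128160256, 222341824512, 266310713344], [840888287232]], [[134882590720, 5686099968], [658329763840]], [[-8422686720]], [[338165760]]], [[[1130174873600, 184518377472, 202337878016], [646702235648]], [[132879482880, 15865741312], [676637376512]], [[-6852640768]], [[116457472]]], [[[1131912691712, 175952297984, 199722729472], [625204658176]], [[128144572416, 17381851136], [676682465280]], [[-4809359360]], [[-112001024]]], [[[1134012071936, 175478669312, 197018976256], [625515954176]], [[124101001216, 16329080832], [675122315264]], [[-2835611648]], [[-401735680]]], [[[1132238864384, 187738357760, 201801269248], [612686561280]], [[124986851328, 11380195328], [678298648576]], [[-2858942464]], [[-485687296]]]]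
  l0 := [[[3842415959360, -107790089408, -232032861312], [3522645901440, -3114710631360], [-5844142670464]], [[-664477194112, -437313525760, 55207823488], [-20022946996352, 278531170240], [-44374511124352]], [[-1190854290368, 973023947776], [10709505565568]], [[2138335193792, -887170462464], [-13385587279424]], [[-3263015927040, 651694829248], [15524124075840]], [[3329942739456]], [[-1879949686336]], [[743358935104]]]
  q0 := [[470667935808, 784557558528, -29045654912, 77722453888], [2837263073600, 3219133423936, -3859322799744], [-8984660793408, 13207634387456], [-53159480768896]]
  t := [[[1882925694976, 1010982387712, -719518302208, 1765457526784], [2832152264704, 6467357310976]], [[1294923137024, 791368761344, -1254970621952, 1697444855808], [4176203546624, 8138290823168]], [[1160581545984, 749625737216, -1488926081024, 1518809513984], [3243582750720, 6460613525504]], [[988429549568, 573415882752, -699100692480, 5737344532480], [2252836896768, 4408864014336]], [[888083251200, 1209136971776, 2956250513408, -5173419245568], [2260305575936, 7488254246912]], [[1240236621824, 1971451396096, 4620610961408, -1325435977728], [7640195268608, 25667839393792]]]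
  y := [22392885739520, 14223857942528, 7785701965824, 4447438635008, 2691870752768, 1713691951104]
  sc := [0, 0, 0, 0, 0, 0]
  L := [(0, 2), (0, 3), (1, 1), (1, 2), (2, 0), (2, 1), (3, 0)]
  Lt := [(0, 2), (0, 3), (1, 1)]
  far := 1
  x2 := 10775213113344
  B1 := 659706347520
  C2 := 1327712154624
  f1 := 769658138624
  f2 := 0
  f3 := 0
  is1 := 8796093022208
  s1 := 137438953472

end Pool.Agent.helper14.NR.E5c
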